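import Mathlib

namespace Pool.Agent.FS

open Polynomial Finset

/-- the Hasse polynomial `∑ C(m,j)^2 t^j`, `m = (p-1)/2` -/
noncomputable def HH (F : Type*) [CommRing F] (p : ℕ) : F[X] :=
  ∑ j ∈ Finset.range ((p - 1) / 2 + 1), C (((((p - 1) / 2).choose j : ℕ) : F) ^ 2) * X ^ j

section ring
variable {F : Type*} [CommRing F]

theorem HH_coeff (p j : ℕ) :
    (HH F p).coeff j = ((((p - 1) / 2).choose j : ℕ) : F) ^ 2 := by
  rw [HH, finsetSum_coeff]
  simp only [coeff_C_mul, coeff_X_pow, mul_ite, mul_one, mul_zero]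
  rw [Finset.sum_ite_eq]
  split_ifs with h
  · rfl
  · rw [mem_range, not_lt] at h
    rw [Nat.choose_eq_zero_of_lt (by omega)]; simp

theorem HH_natDegree [Nontrivial F] (p : ℕ) : (HH F p).natDegree = (p - 1) / 2 := by
  refine natDegree_eq_of_le_of_coeff_ne_zero ?_ ?_
  · rw [natDegree_le_iff_coeff_eq_zero]
    intro N hN
    rw [HH_coeff, Nat.choose_eq_zero_of_lt hN]; simp
  · rw [HH_coeff, Nat.choose_self]; simp

theorem HH_ne_zero [Nontrivial F] (p : ℕ) : HH F p ≠ 0 := by
  intro h
  have := HH_coeff (F := F) p 0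
  rw [h, coeff_zero, Nat.choose_zero_right] at this
  simp at this

theorem HH_eval (p : ℕ) (t : F) :
    (HH F p).eval t =
      ∑ j ∈ Finset.range ((p - 1) / 2 + 1), ((((p - 1) / 2).choose j : ℕ) : F) ^ 2 * t ^ j := by
  simp [HH, eval_finsetSum]

theorem HH_eval_zero (p : ℕ) : (HH F p).eval 0 = 1 := by
  rw [← coeff_zero_eq_eval_zero, HH_coeff, Nat.choose_zero_right]; simp

theorem HH_eval_one (p : ℕ) :
    (HH F p).eval 1 = (((2 * ((p - 1) / 2)).choose ((p - 1) / 2) : ℕ) : F) := by
  rw [HH_eval, ← Nat.sum_range_choose_sq]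
  push_cast
  simp

theorem HH_map {G : Type*} [CommRing G] (φ : F →+* G) (p : ℕ) : (HH F p).map φ = HH G p := by
  ext j
  rw [coeff_map, HH_coeff, HH_coeff, map_pow, map_natCast]

/-- the functional equation `t^m H(1/t) = H(t)` -/
theorem HH_inv {F : Type*} [Field F] (p : ℕ) {t : F} (ht : t ≠ 0) :
    t ^ ((p - 1) / 2) * (HH F p).eval t⁻¹ = (HH F p).eval t := by
  rw [HH_eval, HH_eval, Finset.mul_sum, ← Finset.sum_range_reflect]
  refine Finset.sum_congr rfl fun j hj => ?_
  rw [mem_range] at hj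
  have h1 : (p - 1) / 2 + 1 - 1 - j = (p - 1) / 2 - j := by omega
  rw [h1, Nat.choose_symm (by omega : j ≤ (p - 1) / 2)]
  have h2 : t ^ ((p - 1) / 2) = t ^ ((p - 1) / 2 - j) * t ^ j := by
    rw [← pow_add]; congr 1; omega
  rw [h2]
  have h3 : t ^ ((p - 1) / 2 - j) * t⁻¹ ^ ((p - 1) / 2 - j) = 1 := by
    rw [← mul_pow, mul_inv_cancel₀ ht, one_pow]
  linear_combination ((((p - 1) / 2).choose j : ℕ) : F) ^ 2 * t ^ j * h3

theorem two_m (p : ℕ) (hp : Odd p) [CharP F p] : 2 * ((((p - 1) / 2 : ℕ)) : F) = -1 := by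
  obtain ⟨k, hk⟩ := hp
  have h : (p - 1) / 2 = k := by omega
  rw [h]
  have h2 : ((2 * k + 1 : ℕ) : F) = 0 := by rw [← hk]; exact CharP.cast_eq_zero F p
  push_cast at h2
  linear_combination h2

theorem HH_rec (p : ℕ) (hp : Odd p) [CharP F p] (j : ℕ) :
    4 * ((j : F) + 1) ^ 2 * (HH F p).coeff (j + 1) = (2 * (j : F) + 1) ^ 2 * (HH F p).coeff j := by
  rw [HH_coeff, HH_coeff]
  have h := two_m (F := F) p hp
  set m := (p - 1) / 2 with hm
  have h1 : ((m.choose (j + 1) : ℕ) : F) * ((j : F) + 1) = ((m.choose j : ℕ) : F) * ((m : F) - j) := by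
    have := Nat.choose_succ_right_eq m j
    rcases le_or_gt j m with hj | hj
    · have h2 := congrArg (Nat.cast (R := F)) this
      push_cast [Nat.cast_sub hj] at h2
      exact h2
    · rw [Nat.choose_eq_zero_of_lt hj, Nat.choose_eq_zero_of_lt (by omega : m < j + 1)]; simp
  have h3 : 2 * (((m.choose (j + 1) : ℕ) : F) * ((j : F) + 1)) =
      ((m.choose j : ℕ) : F) * (-1 - 2 * (j : F)) := by
    rw [h1]; linear_combination ((m.choose j : ℕ) : F) * h
  calc _ = (2 * (((m.choose (j + 1) : ℕ) : F) * ((j : F) + 1))) ^ 2 := by ring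
    _ = _ := by rw [h3]; ring

/-- the hypergeometric equation, all derivatives -/
theorem HH_ode (p : ℕ) (hp : Odd p) [CharP F p] :
    4 * X * (1 - X) * derivative (derivative (HH F p)) + 4 * (1 - 2 * X) * derivative (HH F p)
      = HH F p := by
  have e : 4 * X * (1 - X) * derivative (derivative (HH F p)) +
      4 * (1 - 2 * X) * derivative (HH F p) =
      4 * (X * derivative (derivative (HH F p))) - 4 * (X * (X * derivative (derivative (HH F p))))
        + 4 * derivative (HH F p) - 8 * (X * derivative (HH F p)) := by ring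
  rw [e]
  ext j
  have r := HH_rec (F := F) p hp
  rcases j with _ | _ | j
  · have r0 := r 0
    simp only [coeff_add, coeff_sub, coeff_ofNat_mul, mul_coeff_zero, coeff_X_zero, coeff_derivative]
    push_cast at r0 ⊢
    linear_combination r0
  · have r1 := r 1
    simp only [coeff_add, coeff_sub, coeff_ofNat_mul, coeff_X_mul, mul_coeff_zero, coeff_X_zero,
      coeff_derivative]
    push_cast at r1 ⊢
    linear_combination r1
  · have r2 := r (j + 2)
    simp only [coeff_add, coeff_sub, coeff_ofNat_mul, coeff_X_mul, coeff_derivative]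
    push_cast at r2 ⊢
    linear_combination r2

theorem HH_ode_iter (p : ℕ) (hp : Odd p) [CharP F p] (n : ℕ) :
    4 * X * (1 - X) * derivative^[n + 2] (HH F p) +
      4 * ((n : F[X]) + 1) * (1 - 2 * X) * derivative^[n + 1] (HH F p)
      = (2 * (n : F[X]) + 1) ^ 2 * derivative^[n] (HH F p) := by
  induction n with
  | zero =>
    have h := HH_ode (F := F) p hp
    simp only [Function.iterate_succ, Function.iterate_zero, Function.comp, id]
    push_cast
    linear_combination h
  | succ n ih =>
    have h := congrArg derivative ih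
    simp only [derivative_add, derivative_mul, derivative_X, derivative_sub, derivative_one,
      derivative_ofNat, derivative_natCast, derivative_pow, ← Function.iterate_succ_apply' derivative] at h
    push_cast at h ⊢
    linear_combination h

end ring

section field
variable {F : Type*} [Field F]

theorem HH_eval_one_ne (p : ℕ) [hp : Fact p.Prime] (_hp2 : p ≠ 2) [CharP F p] : (HH F p).eval 1 ≠ 0 := by
  rw [HH_eval_one]
  intro h
  rw [CharP.cast_eq_zero_iff F p] at h
  have h1 : p ∣ (2 * ((p - 1) / 2)).factorial := by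
    rw [← Nat.choose_mul_factorial_mul_factorial (show (p - 1) / 2 ≤ 2 * ((p - 1) / 2) by omega)]
    exact (h.mul_right _).mul_right _
  rw [hp.out.dvd_factorial] at h1
  have := hp.out.two_le
  omega

/-- a zero of `H` is simple -/
theorem HH_deriv_ne (p : ℕ) [hp : Fact p.Prime] (hp2 : p ≠ 2) [CharP F p] {t : F}
    (ht : (HH F p).eval t = 0) : (derivative (HH F p)).eval t ≠ 0 := by
  intro h
  have hodd : Odd p := hp.out.odd_of_ne_two hp2
  have t0 : t ≠ 0 := by
    rintro rfl
    rw [HH_eval_zero] at ht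
    exact one_ne_zero ht
  have t1 : t ≠ 1 := by
    rintro rfl
    exact HH_eval_one_ne p hp2 ht
  have h2 : (2 : F) ≠ 0 := by
    intro h2
    have : ((2 : ℕ) : F) = 0 := by exact_mod_cast h2
    rw [CharP.cast_eq_zero_iff F p] at this
    have := (Nat.prime_dvd_prime_iff_eq hp.out Nat.prime_two).1 this
    exact hp2 this
  have key : ∀ n : ℕ, (derivative^[n] (HH F p)).eval t = 0 ∧
      (derivative^[n + 1] (HH F p)).eval t = 0 := by
    intro n
    induction n with
    | zero => exact ⟨ht, h⟩
    | succ n ih =>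
      refine ⟨ih.2, ?_⟩
      have e := congrArg (Polynomial.eval t) (HH_ode_iter (F := F) p hodd n)
      simp only [eval_add, eval_mul, eval_sub, eval_one, eval_X, eval_pow, eval_ofNat,
        eval_natCast, ih.1, ih.2, mul_zero, add_zero] at e
      have h4 : (4 : F) * t * (1 - t) ≠ 0 := by
        have : (4 : F) = 2 * 2 := by norm_num
        rw [this]
        exact mul_ne_zero (mul_ne_zero (mul_ne_zero h2 h2) t0) (sub_ne_zero.2 (Ne.symm t1))
      exact (mul_eq_zero.1 e).resolve_left h4
  have hm := (key ((p - 1) / 2)).1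
  have hc : derivative^[(p - 1) / 2] (HH F p) = C ((((p - 1) / 2).factorial : ℕ) : F) := by
    ext j
    rw [coeff_iterate_derivative, HH_coeff, coeff_C]
    split_ifs with hj
    · subst hj
      simp [Nat.descFactorial_self]
    · rw [Nat.choose_eq_zero_of_lt (by omega : (p - 1) / 2 < j + (p - 1) / 2)]
      simp
  rw [hc, eval_C, CharP.cast_eq_zero_iff F p, hp.out.dvd_factorial] at hm
  have := hp.out.two_le
  omega

theorem HH_separable (p : ℕ) [hp : Fact p.Prime] (hp2 : p ≠ 2) [CharP F p] :
    (HH F p).Separable := by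
  classical
  have : CharP (AlgebraicClosure F) p := charP_of_injective_algebraMap (algebraMap F (AlgebraicClosure F)).injective p
  rw [← Polynomial.separable_map (algebraMap F (AlgebraicClosure F)), HH_map]
  rw [← Polynomial.nodup_roots_iff_of_splits (HH_ne_zero p) (IsAlgClosed.splits _)]
  rw [Multiset.nodup_iff_count_le_one]
  intro a
  rw [count_roots]
  by_contra hc
  have h1 : 1 < (HH (AlgebraicClosure F) p).rootMultiplicity a := by omega
  rw [one_lt_rootMultiplicity_iff_isRoot (HH_ne_zero p)] at h1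
  exact HH_deriv_ne p hp2 h1.1 h1.2

open Classical in
/-- the supersingular Legendre parameters -/
noncomputable def SIG (F : Type*) [Field F] (p : ℕ) : Finset F := (HH F p).roots.toFinset

theorem mem_SIG (p : ℕ) {t : F} : t ∈ SIG F p ↔ (HH F p).eval t = 0 := by
  classical
  rw [SIG, Multiset.mem_toFinset, mem_roots (HH_ne_zero p)]
  rfl

theorem SIG_card [IsAlgClosed F] (p : ℕ) [hp : Fact p.Prime] (hp2 : p ≠ 2) [CharP F p] :
    (SIG F p).card = (p - 1) / 2 := by
  classical
  rw [SIG]
  have h1 : (HH F p).roots.Nodup := nodup_roots (HH_separable p hp2)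
  have h2 := Multiset.toFinset_card_of_nodup h1
  rw [show (HH F p).roots.card = (p - 1) / 2 by
    rw [← HH_natDegree (F := F) p]
    exact (splits_iff_card_roots.1 (IsAlgClosed.splits (HH F p)))] at h2
  convert h2

theorem SIG_ne_zero (p : ℕ) {t : F} (h : t ∈ SIG F p) : t ≠ 0 := by
  rintro rfl
  rw [mem_SIG, HH_eval_zero] at h
  exact one_ne_zero h

theorem SIG_ne_one (p : ℕ) [hp : Fact p.Prime] (hp2 : p ≠ 2) [CharP F p] {t : F}
    (h : t ∈ SIG F p) : t ≠ 1 := by
  rintro rfl
  rw [mem_SIG] at h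
  exact HH_eval_one_ne p hp2 h

theorem SIG_inv (p : ℕ) {t : F} (h : t ∈ SIG F p) : t⁻¹ ∈ SIG F p := by
  have h0 := SIG_ne_zero p h
  rw [mem_SIG] at h ⊢
  have h1 := HH_inv p h0
  rw [h] at h1
  exact (mul_eq_zero.1 h1).resolve_left (pow_ne_zero _ h0)

end field

end Pool.Agent.FS
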