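import Mathlib
import Pool.Agent.FS.Sep

/-!
# The number of points of a Legendre curve modulo the characteristic

The sum of the quadratic character of `x (x - 1) (x - lam)` over a finite field of characteristic
`p` vanishes modulo `p` if and only if `H(lam) = 0`; in this case the Legendre curve has
`1` modulo `p` points, in particular no point of order `p`.
-/

set_option autoImplicit false

namespace Pool.Agent.FS

open Polynomial Finset

section sums

variable {F : Type*} [Field F] [Fintype F]

theorem Cnt_sum_pow (n : ℕ) (hn : n < 2 * (Fintype.card F - 1)) :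
    ∑ x : F, x ^ n = if n = Fintype.card F - 1 then -1 else 0 := by
  classical
  have hq : 1 < Fintype.card F := Fintype.one_lt_card
  rcases Nat.lt_or_ge n (Fintype.card F - 1) with h | h
  · rw [FiniteField.sum_pow_lt_card_sub_one F n h, if_neg (by omega)]
  · have hn0 : n ≠ 0 := by omega
    let φ : Fˣ ↪ F := ⟨fun x ↦ x, Units.val_injective⟩
    have hφ : univ.map φ = univ \ {0} := by
      ext x
      simpa only [mem_map, mem_univ, Function.Embedding.coeFn_mk, true_and, mem_sdiff,
        mem_singleton, φ] using! isUnit_iff_ne_zero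
    have h1 : ∑ x : F, x ^ n = ∑ x : Fˣ, (x ^ n : F) := by
      calc
        ∑ x : F, x ^ n = ∑ x ∈ univ \ {(0 : F)}, x ^ n := by
          rw [← sum_sdiff ({0} : Finset F).subset_univ, sum_singleton, zero_pow hn0, add_zero]
        _ = ∑ x : Fˣ, (x ^ n : F) := by simp [φ, ← hφ, univ.sum_map φ]
    rw [h1, FiniteField.sum_pow_units F n]
    by_cases he : n = Fintype.card F - 1
    · rw [if_pos he, if_pos (by rw [he])]
    · rw [if_neg he, if_neg]
      rintro ⟨c, hc⟩
      have h2 : c < 2 := by
        by_contra hc2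
        have : (Fintype.card F - 1) * 2 ≤ (Fintype.card F - 1) * c :=
          Nat.mul_le_mul_left _ (by omega)
        omega
      interval_cases c
      · omega
      · omega

theorem Cnt_sum_eval (g : F[X]) (hg : g.natDegree < 2 * (Fintype.card F - 1)) :
    ∑ x : F, g.eval x = -g.coeff (Fintype.card F - 1) := by
  have h1 : ∀ x : F, g.eval x = ∑ n ∈ range (2 * (Fintype.card F - 1)), g.coeff n * x ^ n :=
    fun x => eval_eq_sum_range' hg x
  simp only [h1]
  rw [sum_comm]
  have hq : 1 < Fintype.card F := Fintype.one_lt_card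
  calc ∑ n ∈ range (2 * (Fintype.card F - 1)), ∑ x : F, g.coeff n * x ^ n
      = ∑ n ∈ range (2 * (Fintype.card F - 1)),
          g.coeff n * (if n = Fintype.card F - 1 then -1 else 0) := by
        refine sum_congr rfl fun n hn => ?_
        rw [← mul_sum, Cnt_sum_pow n (mem_range.1 hn)]
    _ = -g.coeff (Fintype.card F - 1) := by
        simp only [mul_ite, mul_neg, mul_one, mul_zero]
        rw [sum_ite_eq' (range (2 * (Fintype.card F - 1))), if_pos (mem_range.2 (by omega))]

end sums

section coefficient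

variable {F : Type*} [Field F]

/-- The cubic polynomial. -/
noncomputable def cub (lam : F) : F[X] := X * ((X + C (-1)) * (X + C (-lam)))

theorem cub_eval (lam x : F) : (cub lam).eval x = x * (x - 1) * (x - lam) := by
  simp only [cub, eval_mul, eval_X, eval_add, eval_C]
  ring

theorem cub_natDegree (lam : F) : (cub lam).natDegree = 3 := by
  have h1 : (X + C (-1) : F[X]) ≠ 0 := X_add_C_ne_zero _
  have h2 : (X + C (-lam) : F[X]) ≠ 0 := X_add_C_ne_zero _
  rw [cub, natDegree_mul X_ne_zero (mul_ne_zero h1 h2), natDegree_mul h1 h2, natDegree_X,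
    natDegree_X_add_C, natDegree_X_add_C]

/-- The coefficient `A_(p^e)`. -/
noncomputable def AA (p : ℕ) (lam : F) (e : ℕ) : F := (cub lam ^ ((p ^ e - 1) / 2)).coeff (p ^ e - 1)

theorem AA_one (p : ℕ) (hp : Odd p) (lam : F) :
    AA p lam 1 = (-1) ^ ((p - 1) / 2) * (HH F p).eval lam := by
  obtain ⟨m, hm⟩ := hp
  have h1 : (p - 1) / 2 = m := by omega
  rw [AA, pow_one, h1, HH_eval, h1, cub, mul_pow, mul_pow]
  have h2 : p - 1 = m + m := by omega
  rw [h2, coeff_X_pow_mul, coeff_mul, Finset.Nat.sum_antidiagonal_eq_sum_range_succ_mk, mul_sum]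
  refine sum_congr rfl fun a ha => ?_
  rw [mem_range] at ha
  rw [coeff_X_add_C_pow, coeff_X_add_C_pow, Nat.choose_symm (by omega : a ≤ m)]
  have h3 : m - (m - a) = a := by omega
  rw [h3]
  have h4 : (-1 : F) ^ m = (-1) ^ (m - a) * (-1) ^ a := by
    rw [← pow_add]
    congr 1
    omega
  have h5 : (-lam) ^ a = (-1) ^ a * lam ^ a := by
    rw [← mul_pow]
    ring
  rw [h4, h5]
  ring

theorem AA_succ (p : ℕ) [Fact p.Prime] [CharP F p] (hp : Odd p) (lam : F) (e : ℕ) :
    AA p lam (e + 1) = AA p lam e ^ p * AA p lam 1 := by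
  have hpp : p.Prime := Fact.out
  have : ExpChar F p := ExpChar.prime hpp
  obtain ⟨m, hm⟩ := hp
  obtain ⟨n, hn⟩ : Odd (p ^ e) := Odd.pow ⟨m, hm⟩
  have hpe : p ^ (e + 1) = p * (2 * n + 1) := by rw [pow_succ, hn, mul_comm]
  have e1 : (p ^ (e + 1) - 1) / 2 = p * n + m := by
    have : p * (2 * n + 1) = 2 * (p * n + m) + 1 := by
      have : p * (2 * n + 1) = 2 * (p * n) + p := by ring
      omega
    rw [hpe]
    omega
  have e2 : (p ^ e - 1) / 2 = n := by omega
  have e3 : (p ^ 1 - 1) / 2 = m := by
    rw [pow_one]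
    omega
  have e4 : p ^ (e + 1) - 1 = p * (2 * n) + (p - 1) := by
    rw [hpe]
    have : p * (2 * n + 1) = p * (2 * n) + p := by ring
    have := hpp.pos
    omega
  have e5 : p ^ e - 1 = 2 * n := by omega
  rw [AA, AA, AA, e1, e2, e3, e4, e5, pow_one, pow_add, mul_comm p n, pow_mul, coeff_mul,
    ← map_frobenius_expand (p := p)]
  rw [Finset.sum_eq_single (p * (2 * n), p - 1)]
  · rw [coeff_map, mul_comm p (2 * n), coeff_expand_mul hpp.pos, frobenius_def]
  · rintro ⟨a, b⟩ hab hne
    rw [HasAntidiagonal.mem_antidiagonal] at hab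
    simp only at hab ⊢
    rw [coeff_map, coeff_expand hpp.pos]
    split_ifs with h
    · obtain ⟨c, rfl⟩ := h
      have hb : (cub lam ^ m).coeff b = 0 := by
        apply coeff_eq_zero_of_natDegree_lt
        rw [natDegree_pow, cub_natDegree]
        by_contra hlt
        rw [not_lt] at hlt
        -- `b ≤ 3 m`, `p c + b = p (2 n) + (p - 1)`
        have h6 : b < 2 * p - 1 := by omega
        have h7 : c = 2 * n := by
          rcases Nat.lt_trichotomy c (2 * n) with h | h | h
          · exfalso
            have : p * (c + 1) ≤ p * (2 * n) := Nat.mul_le_mul_left _ (by omega)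
            have h8 : p * (c + 1) = p * c + p := by ring
            omega
          · exact h
          · exfalso
            have : p * (2 * n + 1) ≤ p * c := Nat.mul_le_mul_left _ (by omega)
            have h8 : p * (2 * n + 1) = p * (2 * n) + p := by ring
            have := hpp.pos
            omega
        apply hne
        subst h7
        have : b = p - 1 := by omega
        rw [this]
      rw [hb, mul_zero]
    · rw [map_zero, zero_mul]
  · intro h
    exact absurd (HasAntidiagonal.mem_antidiagonal.2 (by rfl)) h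

theorem AA_eq_zero_iff (p : ℕ) [Fact p.Prime] [CharP F p] (hp : Odd p) (lam : F) (e : ℕ) :
    AA p lam (e + 1) = 0 ↔ (HH F p).eval lam = 0 := by
  have h1 : AA p lam 1 = 0 ↔ (HH F p).eval lam = 0 := by
    rw [AA_one p hp, mul_eq_zero]
    constructor
    · rintro (h | h)
      · exact absurd h (pow_ne_zero _ (neg_ne_zero.2 one_ne_zero))
      · exact h
    · exact Or.inr
  have hp0 : p ≠ 0 := (Fact.out : p.Prime).ne_zero
  induction e with
  | zero => exact h1
  | succ e ih =>
    rw [AA_succ p hp, mul_eq_zero, pow_eq_zero_iff hp0]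
    exact ⟨fun h => h.elim (fun h => ih.1 h) (fun h => h1.1 h), fun h => Or.inr (h1.2 h)⟩

end coefficient

section chars

variable {F : Type*} [Field F] [Fintype F] [DecidableEq F]

theorem Cnt_odd (p : ℕ) [hpp : Fact p.Prime] (hp : p ≠ 2) : Odd p :=
  hpp.out.odd_of_ne_two hp

theorem Cnt_ringChar (p : ℕ) [Fact p.Prime] [CharP F p] (hp : p ≠ 2) : ringChar F ≠ 2 := by
  rw [ringChar.eq F p]
  exact hp

theorem Cnt_char_sum (p : ℕ) [Fact p.Prime] [CharP F p] (hp : p ≠ 2) (lam : F) :
    ∃ e : ℕ, ((∑ x : F, quadraticChar F (x * (x - 1) * (x - lam)) : ℤ) : F) =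
      -AA p lam (e + 1) := by
  obtain ⟨n, -, hn⟩ := FiniteField.card F p
  obtain ⟨e, he⟩ : ∃ e, (n : ℕ) = e + 1 := ⟨(n : ℕ) - 1, by have := n.pos; omega⟩
  refine ⟨e, ?_⟩
  have hodd : Odd (Fintype.card F) := by
    rw [hn]
    exact (Cnt_odd p hp).pow
  obtain ⟨c, hc⟩ := hodd
  have hc1 : Fintype.card F / 2 = c := by omega
  have hc2 : (p ^ (e + 1) - 1) / 2 = c := by
    rw [← he, ← hn]
    omega
  have hq : 1 < Fintype.card F := Fintype.one_lt_card
  push_cast
  calc ∑ x : F, ((quadraticChar F (x * (x - 1) * (x - lam)) : ℤ) : F)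
      = ∑ x : F, (cub lam ^ c).eval x := by
        refine sum_congr rfl fun x _ => ?_
        rw [quadraticChar_eq_pow_of_char_ne_two' (Cnt_ringChar p hp), hc1, eval_pow, cub_eval]
    _ = -(cub lam ^ c).coeff (Fintype.card F - 1) := by
        apply Cnt_sum_eval
        rw [natDegree_pow, cub_natDegree]
        omega
    _ = -AA p lam (e + 1) := by
        rw [AA, hc2, ← he, ← hn]

/-- The character sum vanishes modulo `p` if and only if `H(lam) = 0`. -/
theorem char_sum (p : ℕ) [Fact p.Prime] [CharP F p] (hp : p ≠ 2) (lam : F) :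
    ((∑ x : F, quadraticChar F (x * (x - 1) * (x - lam)) : ℤ) : F) = 0 ↔
      (HH F p).eval lam = 0 := by
  obtain ⟨e, he⟩ := Cnt_char_sum p hp lam
  rw [he, neg_eq_zero, AA_eq_zero_iff p (Cnt_odd p hp)]

end chars

/-- The Legendre curve `y ^ 2 = x (x - 1) (x - lam)`. -/
def legW {F : Type*} [CommRing F] (lam : F) : WeierstrassCurve F := ⟨0, -(1 + lam), 0, lam, 0⟩

section points

variable {F : Type*} [Field F]

theorem legW_equation (lam x y : F) :
    (legW lam).toAffine.Equation x y ↔ y ^ 2 = x * (x - 1) * (x - lam) := by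
  rw [WeierstrassCurve.Affine.equation_iff]
  simp only [legW]
  constructor
  · intro h
    linear_combination h
  · intro h
    linear_combination h

theorem legW_Δ (lam : F) : (legW lam).Δ = 16 * lam ^ 2 * (lam - 1) ^ 2 := by
  simp only [WeierstrassCurve.Δ, WeierstrassCurve.b₂, WeierstrassCurve.b₄, WeierstrassCurve.b₆,
    WeierstrassCurve.b₈, legW]
  ring

theorem legW_nonsingular (h2 : (2 : F) ≠ 0) {lam : F} (h0 : lam ≠ 0) (h1 : lam ≠ 1) (x y : F) :
    (legW lam).toAffine.Nonsingular x y ↔ y ^ 2 = x * (x - 1) * (x - lam) := by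
  have hΔ : (legW lam).toAffine.Δ ≠ 0 := by
    have h16 : (16 : F) ≠ 0 := by
      have : (16 : F) = 2 ^ 4 := by norm_num
      rw [this]
      exact pow_ne_zero 4 h2
    change (legW lam).Δ ≠ 0
    rw [legW_Δ]
    exact mul_ne_zero (mul_ne_zero h16 (pow_ne_zero 2 h0)) (pow_ne_zero 2 (sub_ne_zero.2 h1))
  rw [← (legW lam).toAffine.equation_iff_nonsingular_of_Δ_ne_zero hΔ, legW_equation]

/-- The points of the curve. -/
noncomputable def legEquiv (h2 : (2 : F) ≠ 0) {lam : F} (h0 : lam ≠ 0) (h1 : lam ≠ 1) :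
    (legW lam).toAffine.Point ≃ Option {q : F × F // q.2 ^ 2 = q.1 * (q.1 - 1) * (q.1 - lam)} where
  toFun P := match P with
    | .zero => none
    | .some x y h => some ⟨(x, y), (legW_nonsingular h2 h0 h1 x y).1 h⟩
  invFun P := match P with
    | none => .zero
    | some ⟨(x, y), h⟩ => .some x y ((legW_nonsingular h2 h0 h1 x y).2 h)
  left_inv P := by
    cases P with
    | zero => rfl
    | some x y h => rfl
  right_inv P := by
    rcases P with _ | ⟨⟨x, y⟩, h⟩
    · rfl
    · rfl

theorem card_point {F : Type*} [Field F] [Finite F] (p : ℕ) [Fact p.Prime] [CharP F p]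
    (hp : p ≠ 2) {lam : F} (h0 : lam ≠ 0) (h1 : lam ≠ 1) (hH : (HH F p).eval lam = 0) :
    (Nat.card (legW lam).toAffine.Point : F) = 1 := by
  classical
  have : Fintype F := Fintype.ofFinite F
  have h2 : (2 : F) ≠ 0 := by
    intro h
    have h3 : ((2 : ℕ) : F) = 0 := by exact_mod_cast h
    rw [CharP.cast_eq_zero_iff F p] at h3
    exact hp ((Nat.prime_dvd_prime_iff_eq Fact.out Nat.prime_two).1 h3)
  rw [Nat.card_congr (legEquiv h2 h0 h1), Nat.card_eq_fintype_card, Fintype.card_option]
  have hcard : Fintype.card {q : F × F // q.2 ^ 2 = q.1 * (q.1 - 1) * (q.1 - lam)} =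
      ∑ x : F, ({y : F | y ^ 2 = x * (x - 1) * (x - lam)}.toFinset).card := by
    rw [Fintype.card_subtype, Finset.card_filter, ← Finset.univ_product_univ, Finset.sum_product]
    refine sum_congr rfl fun x _ => ?_
    rw [← Finset.card_filter]
    congr 1
    ext y
    simp
  have hs : ((Fintype.card {q : F × F // q.2 ^ 2 = q.1 * (q.1 - 1) * (q.1 - lam)} : ℤ) : F) =
      ((∑ x : F, quadraticChar F (x * (x - 1) * (x - lam)) : ℤ) : F) := by
    rw [hcard]
    push_cast
    have h4 : ∀ x : F, (({y : F | y ^ 2 = x * (x - 1) * (x - lam)}.toFinset.card : ℕ) : F) =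
        (quadraticChar F (x * (x - 1) * (x - lam)) : F) + 1 := by
      intro x
      have := quadraticChar_card_sqrts (Cnt_ringChar p hp) (x * (x - 1) * (x - lam))
      have h5 := congrArg (fun z : ℤ => (z : F)) this
      simpa using h5
    simp only [h4]
    rw [sum_add_distrib]
    simp
  rw [(char_sum p hp lam).2 hH] at hs
  push_cast at hs ⊢
  rw [hs, zero_add]

theorem not_dvd_card_point {F : Type*} [Field F] [Finite F] (p : ℕ) [Fact p.Prime] [CharP F p]
    (hp : p ≠ 2) {lam : F} (h0 : lam ≠ 0) (h1 : lam ≠ 1) (hH : (HH F p).eval lam = 0) :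
    ¬ p ∣ Nat.card (legW lam).toAffine.Point := by
  intro h
  rw [← CharP.cast_eq_zero_iff F p, card_point p hp h0 h1 hH] at h
  exact one_ne_zero h

/-- There is no point of order `p`. -/
theorem no_order_p {F : Type*} [Field F] [Finite F] [DecidableEq F] (p : ℕ) [hpp : Fact p.Prime]
    [CharP F p] (hp : p ≠ 2) {lam : F} (h0 : lam ≠ 0) (h1 : lam ≠ 1)
    (hH : (HH F p).eval lam = 0) (P : (legW lam).toAffine.Point) (hP : p • P = 0) : P = 0 := by
  by_contra hne
  have h2 : addOrderOf P = p := by
    have h3 := addOrderOf_dvd_of_nsmul_eq_zero hP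
    rcases (Nat.dvd_prime hpp.out).1 h3 with h4 | h4
    · exact absurd (AddMonoid.addOrderOf_eq_one_iff.1 h4) hne
    · exact h4
  have h5 : addOrderOf P ∣ Nat.card (legW lam).toAffine.Point := addOrderOf_dvd_natCard P
  rw [h2] at h5
  exact not_dvd_card_point p hp h0 h1 hH h5

end points

end Pool.Agent.FS
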