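import Mathlib
import Pool.Agent.FS.CntA

set_option autoImplicit false

namespace Pool.Agent.FS

open Finset

section landen

variable {F : Type*} [Field F] [Fintype F] [DecidableEq F]

/-- the number of `x` with `x ^ 2 - u x + v ^ 2 = 0` -/
theorem card_quad (hF : ringChar F ≠ 2) (u v : F) :
    ((univ.filter fun x : F => x ^ 2 - u * x + v ^ 2 = 0).card : ℤ) =
      quadraticChar F (u ^ 2 - 4 * v ^ 2) + 1 := by
  have h2 : (2 : F) ≠ 0 := Ring.two_ne_zero hF
  rw [← quadraticChar_card_sqrts hF, Set.toFinset_card]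
  rw [Nat.cast_inj]
  rw [← Fintype.card_coe]
  refine Fintype.card_congr
    { toFun := fun x => ⟨2 * x.1 - u, ?_⟩
      invFun := fun y => ⟨(y.1 + u) / 2, ?_⟩
      left_inv := ?_
      right_inv := ?_ }
  · have hx := (mem_filter.1 x.2).2
    rw [Set.mem_ofPred_eq]
    linear_combination 4 * hx
  · have hy : y.1 ^ 2 = u ^ 2 - 4 * v ^ 2 := y.2
    rw [mem_filter]
    refine ⟨mem_univ _, ?_⟩
    have h4 : (4 : F) ≠ 0 := by
      have : (4 : F) = 2 * 2 := by norm_num
      rw [this]
      exact mul_ne_zero h2 h2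
    apply mul_left_cancel₀ h4
    field_simp
    linear_combination hy
  · intro x
    ext
    simp only
    field_simp
    ring
  · intro y
    ext
    simp only
    field_simp
    ring

theorem sum_quad (hF : ringChar F ≠ 2) {v : F} (hv : v ≠ 0) (g : F → ℤ) :
    ∑ x ∈ univ.filter (fun x : F => x ≠ 0), g (x + v ^ 2 / x) =
      ∑ u : F, g u * (quadraticChar F (u ^ 2 - 4 * v ^ 2) + 1) := by
  have e1 : ∀ u : F, g u * (quadraticChar F (u ^ 2 - 4 * v ^ 2) + 1) =
      ∑ x : F, if x ^ 2 - u * x + v ^ 2 = 0 then g u else 0 := by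
    intro u
    rw [← card_quad hF, ← sum_filter, sum_const, nsmul_eq_mul, mul_comm]
  rw [sum_congr rfl fun u _ => e1 u, sum_comm, sum_filter]
  refine sum_congr rfl fun x _ => ?_
  by_cases hx : x = 0
  · subst hx
    rw [if_neg (by simp)]
    symm
    refine sum_eq_zero fun u _ => ?_
    rw [if_neg]
    simpa using hv
  · rw [if_pos hx, sum_eq_single (x + v ^ 2 / x)]
    · rw [if_pos]
      field_simp
      ring
    · intro u _ hu
      rw [if_neg]
      intro h
      apply hu
      field_simp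
      linear_combination -h
    · intro h
      exact absurd (mem_univ _) h

/-- **Landen's transformation** for the character sums of the Legendre curves -/
theorem landen_sum (hF : ringChar F ≠ 2) {v : F} (h0 : v ≠ 0) (h1 : v ≠ -1) :
    ∑ x : F, quadraticChar F (x * (x - 1) * (x - v ^ 2)) =
      ∑ x : F, quadraticChar F (x * (x - 1) * (x - 4 * v / (1 + v) ^ 2)) := by
  have hw : 1 + v ≠ 0 := by
    intro h
    exact h1 (by linear_combination h)
  have s1 : ∑ x : F, quadraticChar F (x * (x - 1) * (x - v ^ 2)) =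
      ∑ x ∈ univ.filter (fun x : F => x ≠ 0), quadraticChar F (x + v ^ 2 / x - (1 + v ^ 2)) := by
    rw [sum_filter]
    refine sum_congr rfl fun x _ => ?_
    by_cases hx : x = 0
    · subst hx
      simp
    · rw [if_pos hx]
      have e : x * (x - 1) * (x - v ^ 2) = x ^ 2 * (x + v ^ 2 / x - (1 + v ^ 2)) := by
        field_simp
        ring
      rw [e, map_mul, quadraticChar_sq_one' hx, one_mul]
  rw [s1, sum_quad hF h0 (fun u => quadraticChar F (u - (1 + v ^ 2)))]
  have s2 : ∑ u : F, quadraticChar F (u - (1 + v ^ 2)) = 0 := by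
    rw [← quadraticChar_sum_zero hF]
    exact Fintype.sum_equiv (Equiv.subRight (1 + v ^ 2)) _ _ fun u => rfl
  have s3 : ∑ u : F, quadraticChar F (u - (1 + v ^ 2)) *
      (quadraticChar F (u ^ 2 - 4 * v ^ 2) + 1) =
      ∑ u : F, quadraticChar F ((u - (1 + v ^ 2)) * (u ^ 2 - 4 * v ^ 2)) := by
    rw [← add_zero (∑ u : F, quadraticChar F ((u - (1 + v ^ 2)) * (u ^ 2 - 4 * v ^ 2))), ← s2,
      ← sum_add_distrib]
    refine sum_congr rfl fun u _ => ?_
    rw [map_mul]
    ring
  rw [s3]
  symm
  have hw2 : (1 + v) ^ 2 ≠ 0 := pow_ne_zero 2 hw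
  refine Fintype.sum_equiv ((Equiv.mulLeft₀ ((1 + v) ^ 2) hw2).trans (Equiv.subRight (2 * v)))
    _ _ fun x => ?_
  have e : (((Equiv.mulLeft₀ ((1 + v) ^ 2) hw2).trans (Equiv.subRight (2 * v))) x : F) =
      (1 + v) ^ 2 * x - 2 * v := rfl
  rw [e]
  have e2 : ((1 + v) ^ 2 * x - 2 * v - (1 + v ^ 2)) * (((1 + v) ^ 2 * x - 2 * v) ^ 2 - 4 * v ^ 2) =
      ((1 + v) ^ 3) ^ 2 * (x * (x - 1) * (x - 4 * v / (1 + v) ^ 2)) := by
    field_simp
    ring
  rw [e2, map_mul (quadraticChar F) (((1 + v) ^ 3) ^ 2), quadraticChar_sq_one' (pow_ne_zero 3 hw),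
    one_mul]

end landen

section om

open Polynomial

/-- Landen's transformation of zeros of the Hasse polynomial, over a finite field -/
theorem HH_landen_fin {F : Type*} [Field F] [Finite F] {p : ℕ} [Fact p.Prime] (hp : p ≠ 2)
    [CharP F p] {v : F} (h0 : v ≠ 0) (h1 : v ≠ -1) (h : (HH F p).eval (v ^ 2) = 0) :
    (HH F p).eval ((v + 1) ^ 2 / (4 * v)) = 0 := by
  classical
  have := Fintype.ofFinite F
  have hF : ringChar F ≠ 2 := by rwa [ringChar.eq F p]
  rw [← char_sum p hp, landen_sum hF h0 h1, char_sum p hp] at h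
  have h2 : (2 : F) ≠ 0 := Ring.two_ne_zero hF
  have h4 : (4 : F) ≠ 0 := by
    have : (4 : F) = 2 * 2 := by norm_num
    rw [this]
    exact mul_ne_zero h2 h2
  have hw : 1 + v ≠ 0 := by
    intro h
    exact h1 (by linear_combination h)
  have ht : (4 * v / (1 + v) ^ 2 : F)⁻¹ = (v + 1) ^ 2 / (4 * v) := by
    rw [inv_div, add_comm]
  have ht0 : (4 * v / (1 + v) ^ 2 : F) ≠ 0 :=
    div_ne_zero (mul_ne_zero h4 h0) (pow_ne_zero 2 hw)
  have e := HH_inv p ht0
  rw [h, ht] at e
  rcases mul_eq_zero.1 e with e | e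
  · exact absurd e (pow_ne_zero _ ht0)
  · exact e

/-- Landen's transformation of zeros of the Hasse polynomial, over an algebraic extension
of the prime field -/
theorem HH_landen {K : Type*} [Field K] {p : ℕ} [Fact p.Prime] (hp : p ≠ 2)
    [Algebra (ZMod p) K] [Algebra.IsAlgebraic (ZMod p) K] {v : K} (h0 : v ≠ 0) (h1 : v ≠ -1)
    (h : (HH K p).eval (v ^ 2) = 0) :
    (HH K p).eval ((v + 1) ^ 2 / (4 * v)) = 0 := by
  have hv : IsIntegral (ZMod p) v := Algebra.IsIntegral.isIntegral v
  let F : IntermediateField (ZMod p) K := IntermediateField.adjoin (ZMod p) {v}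
  have : FiniteDimensional (ZMod p) F := IntermediateField.adjoin.finiteDimensional hv
  have : Finite F := Module.finite_of_finite (ZMod p)
  have : CharP F p := charP_of_injective_algebraMap (algebraMap (ZMod p) F).injective p
  let w : F := ⟨v, IntermediateField.mem_adjoin_simple_self (ZMod p) v⟩
  have hw : algebraMap F K w = v := rfl
  have key : ∀ t : F, (HH K p).eval (algebraMap F K t) = algebraMap F K ((HH F p).eval t) := by
    intro t
    rw [← HH_map (algebraMap F K), eval_map_algebraMap, aeval_algebraMap_apply]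
    rfl
  have hinj : Function.Injective (algebraMap F K) := (algebraMap F K).injective
  have w0 : w ≠ 0 := by
    intro e
    apply h0
    rw [← hw, e, map_zero]
  have w1 : w ≠ -1 := by
    intro e
    apply h1
    rw [← hw, e, map_neg, map_one]
  have hh : (HH F p).eval (w ^ 2) = 0 := by
    apply hinj
    rw [← key, map_pow, hw, h, map_zero]
  have := HH_landen_fin hp w0 w1 hh
  have e2 : ((v + 1) ^ 2 / (4 * v) : K) = algebraMap F K ((w + 1) ^ 2 / (4 * w)) := by
    rw [map_div₀, map_pow, map_add, map_mul, hw, map_one, map_ofNat]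
  rw [e2, key, this, map_zero]

end om

end Pool.Agent.FS
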