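import Pool.Agent.FS.SetB
import Pool.Agent.FS.LandenA

/-!
# The sets `S` and `W3` over the field of `p ^ 2` elements: the Landen step is `HH_landen`

The last hypothesis: the supersingular values are fixed by the power `p ^ 2`.
-/

namespace Pool.Agent.FS

open Polynomial

theorem exists_sw_frob {p : ℕ} [hpf : Fact p.Prime] (hp : 5 ≤ p) {k : Type*} [Field k] [Finite k]
    (hk : Nat.card k = p ^ 2)
    (hF : ∀ t : AlgebraicClosure k, (HH (AlgebraicClosure k) p).eval t = 0 → t ^ (p ^ 2) = t) :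
    ∃ S W3 : Finset k, Pool.Agent.FF.SSet S ∧ Pool.Agent.FF.WSet S W3 ∧ S.card = 2 * (p - 1) ∧
      W3.card = 2 * (p - 1) := by
  haveI := Fintype.ofFinite k
  haveI : CharP k p := charP_of_card_eq_prime_pow (f := 2) (by rw [← Nat.card_eq_fintype_card, hk])
  letI : Algebra (ZMod p) k := ZMod.algebra k p
  haveI : Algebra.IsAlgebraic (ZMod p) k := Algebra.IsAlgebraic.of_finite _ _
  haveI : Algebra.IsAlgebraic (ZMod p) (AlgebraicClosure k) :=
    Algebra.IsAlgebraic.trans (ZMod p) k (AlgebraicClosure k)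
  refine exists_sw_of (Om := AlgebraicClosure k) hp hk (fun t ht => hF t ((mem_SIG p).1 ht)) ?_
  intro v hv0 hv1 hv
  rw [mem_SIG] at hv ⊢
  refine HH_landen (by omega) hv0 ?_ hv
  rintro rfl
  exact hv1 (by ring)

end Pool.Agent.FS
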