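import Pool.Agent.FS.FrobA
import Pool.Agent.FS.Set

/-!
# The sets `S` and `W3` over the field of `p ^ 2` elements, without hypothesis

`MP_e9b03e_nt`, theorem T2, the end of part A.
-/

namespace Pool.Agent.FS

open Polynomial

theorem frob_bar {p : ℕ} [hpf : Fact p.Prime] (hp : 5 ≤ p) {k : Type*} [Field k] [Finite k]
    [CharP k p] (t : AlgebraicClosure k) (ht : (HH (AlgebraicClosure k) p).eval t = 0) :
    t ^ (p ^ 2) = t := by
  let _ : Algebra (ZMod p) k := ZMod.algebra k p
  have : CharP (AlgebraicClosure k) p :=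
    charP_of_injective_algebraMap (algebraMap k (AlgebraicClosure k)).injective p
  have : Algebra.IsAlgebraic (ZMod p) k := Algebra.IsAlgebraic.of_finite (ZMod p) k
  have : Algebra.IsAlgebraic (ZMod p) (AlgebraicClosure k) :=
    Algebra.IsAlgebraic.trans (ZMod p) k (AlgebraicClosure k)
  have h0 : t ≠ 0 := by
    rintro rfl
    rw [HH_eval_zero] at ht
    exact one_ne_zero ht
  have h1 : t ≠ 1 := by
    rintro rfl
    exact HH_eval_one_ne p (by omega) ht
  exact frob p (by omega) h0 h1 ht

/-- **Part A of T2**: the sets `S`, `W3` exist over every field of `p ^ 2` elements, `p ≥ 5`. -/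
theorem exists_sw {p : ℕ} [hpf : Fact p.Prime] (hp : 5 ≤ p) {k : Type*} [Field k] [Finite k]
    (hk : Nat.card k = p ^ 2) :
    ∃ S W3 : Finset k, Pool.Agent.FF.SSet S ∧ Pool.Agent.FF.WSet S W3 ∧ S.card = 2 * (p - 1) ∧
      W3.card = 2 * (p - 1) := by
  have := Fintype.ofFinite k
  have : CharP k p := charP_of_card_eq_prime_pow (f := 2) (by rw [← Nat.card_eq_fintype_card, hk])
  exact exists_sw_frob hp hk fun t ht => frob_bar hp t ht

end Pool.Agent.FS
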