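import Mathlib.AlgebraicGeometry.EllipticCurve.Affine.AddSubMap

/-!
# The addition-and-subtraction map

`addSubMap (x(P) x(Q) : x(P) + x(Q) : 1) = (x(P+Q) x(P-Q) : x(P+Q) + x(P-Q) : 1)` for all points of
a Weierstrass curve over a field.
-/

namespace Pool.Agent.FS

open WeierstrassCurve MvPolynomial

section Alg

variable {F : Type*} [Field F]

/-- the addition formulas -/
lemma core_add {a1 a2 a3 a4 a6 x x' y y' l l' : F}
    (hE : y ^ 2 + a1 * x * y + a3 * y = x ^ 3 + a2 * x ^ 2 + a4 * x + a6)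
    (hE' : y' ^ 2 + a1 * x' * y' + a3 * y' = x' ^ 3 + a2 * x' ^ 2 + a4 * x' + a6)
    (hx : x ≠ x') (hl : l * (x - x') = y - y')
    (hl' : l' * (x - x') = y - (-y' - a1 * x' - a3)) :
    (x - x') ^ 2 * ((l ^ 2 + a1 * l - a2 - x - x') + (l' ^ 2 + a1 * l' - a2 - x - x')) =
      2 * (x + x') * (x * x') + (a1 ^ 2 + 4 * a2) * (x * x') + (2 * a4 + a1 * a3) * (x + x') +
        (a3 ^ 2 + 4 * a6) ∧
    (x - x') ^ 2 * ((l ^ 2 + a1 * l - a2 - x - x') * (l' ^ 2 + a1 * l' - a2 - x - x')) =
      (x * x') ^ 2 - (2 * a4 + a1 * a3) * (x * x') - (a3 ^ 2 + 4 * a6) * (x + x') -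
        (a1 ^ 2 * a6 + 4 * a2 * a6 - a1 * a3 * a4 + a2 * a3 ^ 2 - a4 ^ 2) := by
  have hd : x - x' ≠ 0 := sub_ne_zero.2 hx
  have k1 : (x - x') ^ 2 * (l ^ 2 + a1 * l - a2 - x - x') =
      (x ^ 3 + a2 * x ^ 2 + a4 * x + a6) + (x' ^ 3 + a2 * x' ^ 2 + a4 * x' + a6) -
        (a2 + x + x') * (x - x') ^ 2 -
        (2 * y * y' + (a1 * x' + a3) * y + (a1 * x + a3) * y') := by
    linear_combination (l * (x - x') + (y - y') + a1 * (x - x')) * hl + hE + hE'
  have k2 : (x - x') ^ 2 * (l' ^ 2 + a1 * l' - a2 - x - x') =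
      (x ^ 3 + a2 * x ^ 2 + a4 * x + a6) + (x' ^ 3 + a2 * x' ^ 2 + a4 * x' + a6) -
        (a2 + x + x') * (x - x') ^ 2 +
        (2 * y * y' + (a1 * x' + a3) * y + (a1 * x + a3) * y') +
        (a1 * x + a3) * (a1 * x' + a3) := by
    linear_combination (l' * (x - x') + (y - (-y' - a1 * x' - a3)) + a1 * (x - x')) * hl' +
      hE + hE'
  refine ⟨?_, ?_⟩
  · linear_combination k1 + k2
  · apply mul_left_cancel₀ (pow_ne_zero 2 hd)
    have k3 : (x - x') ^ 2 * ((x - x') ^ 2 * ((l ^ 2 + a1 * l - a2 - x - x') *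
        (l' ^ 2 + a1 * l' - a2 - x - x'))) =
        ((x - x') ^ 2 * (l ^ 2 + a1 * l - a2 - x - x')) *
          ((x - x') ^ 2 * (l' ^ 2 + a1 * l' - a2 - x - x')) := by ring
    rw [k3, k1, k2]
    linear_combination (-1 : F) * ((4 * (y' ^ 2 + (a1 * x' + a3) * y') + (a1 * x' + a3) ^ 2) * hE +
      (4 * (x ^ 3 + a2 * x ^ 2 + a4 * x + a6) + (a1 * x + a3) ^ 2) * hE')

/-- the duplication formulas -/
lemma core_dbl {a1 a2 a3 a4 a6 x y : F}
    (hE : y ^ 2 + a1 * x * y + a3 * y = x ^ 3 + a2 * x ^ 2 + a4 * x + a6) :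
    (2 * y + a1 * x + a3) ^ 2 = 2 * (x + x) * (x * x) + (a1 ^ 2 + 4 * a2) * (x * x) +
      (2 * a4 + a1 * a3) * (x + x) + (a3 ^ 2 + 4 * a6) ∧
    (3 * x ^ 2 + 2 * a2 * x + a4 - a1 * y) ^ 2 +
      a1 * (3 * x ^ 2 + 2 * a2 * x + a4 - a1 * y) * (2 * y + a1 * x + a3) -
      (a2 + 2 * x) * (2 * y + a1 * x + a3) ^ 2 =
      (x * x) ^ 2 - (2 * a4 + a1 * a3) * (x * x) - (a3 ^ 2 + 4 * a6) * (x + x) -
        (a1 ^ 2 * a6 + 4 * a2 * a6 - a1 * a3 * a4 + a2 * a3 ^ 2 - a4 ^ 2) := by
  refine ⟨?_, ?_⟩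
  · linear_combination 4 * hE
  · linear_combination (-(a1 ^ 2 + 4 * a2 + 8 * x)) * hE

end Alg

variable {F : Type*} [Field F]

lemma eval_asm (W : WeierstrassCurve F) (v : Fin 3 → F) :
    (fun i => (W.addSubMap i).eval v) =
      ![v 0 ^ 2 - W.b₄ * v 0 * v 2 - W.b₆ * v 1 * v 2 - W.b₈ * v 2 ^ 2,
        2 * v 1 * v 0 + W.b₂ * v 0 * v 2 + W.b₄ * v 1 * v 2 + W.b₆ * v 2 ^ 2,
        v 1 ^ 2 - 4 * v 0 * v 2] := by
  funext i
  fin_cases i <;> simp [addSubMap]

/-- **The addition-and-subtraction map does what it is claimed to do.** -/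
theorem addSub [DecidableEq F] (W : WeierstrassCurve.Affine F) (P Q : W.Point) :
    ∃ c : F, c ≠ 0 ∧ (fun i => (WeierstrassCurve.addSubMap W i).eval (P.sym2x Q)) =
      c • (P + Q).sym2x (P - Q) := by
  rw [eval_asm]
  rcases P with _ | ⟨x, y, h⟩
  · -- `P = 0`
    rw [← Affine.Point.zero_def, zero_add, zero_sub, Affine.Point.sym2x_neg_right]
    rcases Q with _ | ⟨x', y', h'⟩
    · refine ⟨1, one_ne_zero, ?_⟩
      rw [← Affine.Point.zero_def, Affine.Point.sym2x_zero_zero]
      simp
    · refine ⟨1, one_ne_zero, ?_⟩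
      rw [Affine.Point.sym2x_zero_some, Affine.Point.sym2x_some_some]
      simp
      refine ⟨?_, ?_⟩ <;> ring
  rcases Q with _ | ⟨x', y', h'⟩
  · rw [← Affine.Point.zero_def, add_zero, sub_zero]
    refine ⟨1, one_ne_zero, ?_⟩
    rw [Affine.Point.sym2x_some_zero, Affine.Point.sym2x_some_some]
    simp
    refine ⟨?_, ?_⟩ <;> ring
  rw [Affine.Point.sym2x_some_some,
    sub_eq_add_neg (Affine.Point.some x y h : W.Point) (Affine.Point.some x' y' h'),
    Affine.Point.neg_some]
  have hE := (Affine.equation_iff _ _).1 h.1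
  have hE' := (Affine.equation_iff _ _).1 h'.1
  by_cases hx : x = x'
  · subst hx
    -- duplication
    have dbl : ∀ hy : y ≠ W.negY x y, ∃ c : F, c ≠ 0 ∧
        ![(x * x) ^ 2 - W.b₄ * (x * x) * 1 - W.b₆ * (x + x) * 1 - W.b₈ * 1 ^ 2,
          2 * (x + x) * (x * x) + W.b₂ * (x * x) * 1 + W.b₄ * (x + x) * 1 + W.b₆ * 1 ^ 2,
          (x + x) ^ 2 - 4 * (x * x) * 1] =
        c • ![W.addX x x (W.slope x x y y), 1, 0] := by
      intro hy
      have hu : 2 * y + W.a₁ * x + W.a₃ ≠ 0 := by
        intro h0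
        apply hy
        rw [Affine.negY]
        linear_combination h0
      obtain ⟨k1, k2⟩ := core_dbl hE
      refine ⟨(2 * y + W.a₁ * x + W.a₃) ^ 2, pow_ne_zero 2 hu, ?_⟩
      have hsl : W.slope x x y y * (2 * y + W.a₁ * x + W.a₃) =
          3 * x ^ 2 + 2 * W.a₂ * x + W.a₄ - W.a₁ * y := by
        rw [Affine.slope_of_Y_ne rfl hy]
        have e : y - W.negY x y = 2 * y + W.a₁ * x + W.a₃ := by
          rw [Affine.negY]
          ring
        rw [e, div_mul_cancel₀ _ hu]
      funext i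
      fin_cases i
      · simp only [Affine.addX, WeierstrassCurve.b₄, WeierstrassCurve.b₆, WeierstrassCurve.b₈,
          Fin.zero_eta, Matrix.cons_val_zero, Pi.smul_apply, smul_eq_mul]
        generalize W.slope x x y y = l at hsl
        linear_combination (-1 : F) * k2 - (l * (2 * y + W.a₁ * x + W.a₃) +
          (3 * x ^ 2 + 2 * W.a₂ * x + W.a₄ - W.a₁ * y) +
          W.a₁ * (2 * y + W.a₁ * x + W.a₃)) * hsl
      · simp only [WeierstrassCurve.b₂, WeierstrassCurve.b₄, WeierstrassCurve.b₆,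
          Fin.mk_one, Matrix.cons_val_one, Matrix.cons_val_zero, Pi.smul_apply, smul_eq_mul]
        linear_combination (-1 : F) * k1
      · simp only [Fin.reduceFinMk, Matrix.cons_val, Pi.smul_apply, smul_eq_mul]
        ring
    rcases Affine.Y_eq_of_X_eq h.1 h'.1 rfl with hy | hy
    · -- `P = Q`
      subst hy
      by_cases hy2 : y = W.negY x y
      · -- a point of order two
        have hu : 2 * y + W.a₁ * x + W.a₃ = 0 := by
          rw [Affine.negY] at hy2
          linear_combination hy2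
        have hn : W.a₁ * y - (3 * x ^ 2 + 2 * W.a₂ * x + W.a₄) ≠ 0 := by
          rcases ((Affine.nonsingular_iff' _ _).1 h).2 with h1 | h1
          · exact h1
          · exact absurd hu h1
        obtain ⟨k1, k2⟩ := core_dbl hE
        rw [Affine.Point.add_of_Y_eq rfl hy2]
        have h3 : (Affine.Point.some x y h : W.Point) +
            Affine.Point.some x (W.negY x y) ((Affine.nonsingular_neg ..).mpr h) = 0 := by
          apply Affine.Point.add_of_Y_eq rfl
          rw [Affine.negY_negY]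
        rw [h3, Affine.Point.sym2x_zero_zero]
        refine ⟨(W.a₁ * y - (3 * x ^ 2 + 2 * W.a₂ * x + W.a₄)) ^ 2, pow_ne_zero 2 hn, ?_⟩
        rw [hu] at k1 k2
        funext i
        fin_cases i
        · simp only [WeierstrassCurve.b₄, WeierstrassCurve.b₆, WeierstrassCurve.b₈,
            Fin.zero_eta, Matrix.cons_val_zero, Matrix.cons_val_one, Matrix.cons_val,
            Pi.smul_apply, smul_eq_mul]
          linear_combination (-1 : F) * k2
        · simp only [WeierstrassCurve.b₂, WeierstrassCurve.b₄, WeierstrassCurve.b₆,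
            Fin.mk_one, Matrix.cons_val_one, Matrix.cons_val_zero, Matrix.cons_val,
            Pi.smul_apply, smul_eq_mul]
          linear_combination (-1 : F) * k1
        · simp only [Fin.reduceFinMk, Matrix.cons_val, Matrix.cons_val_zero, Matrix.cons_val_one,
            Pi.smul_apply, smul_eq_mul]
          ring
      · have h3 : (Affine.Point.some x y h : W.Point) +
            Affine.Point.some x (W.negY x y) ((Affine.nonsingular_neg ..).mpr h) = 0 := by
          apply Affine.Point.add_of_Y_eq rfl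
          rw [Affine.negY_negY]
        rw [h3, Affine.Point.add_of_Y_ne hy2, Affine.Point.sym2x_some_zero]
        exact dbl hy2
    · -- `P = -Q`
      subst hy
      by_cases hy2 : y' = W.negY x y'
      · -- a point of order two: this is the previous case
        have hu : 2 * y' + W.a₁ * x + W.a₃ = 0 := by
          rw [Affine.negY] at hy2
          linear_combination hy2
        have hn : W.a₁ * y' - (3 * x ^ 2 + 2 * W.a₂ * x + W.a₄) ≠ 0 := by
          rcases ((Affine.nonsingular_iff' _ _).1 h').2 with h1 | h1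
          · exact h1
          · exact absurd hu h1
        obtain ⟨k1, k2⟩ := core_dbl hE'
        rw [Affine.Point.add_of_Y_eq rfl rfl]
        have h3 : (Affine.Point.some x (W.negY x y') h : W.Point) +
            Affine.Point.some x (W.negY x y') ((Affine.nonsingular_neg ..).mpr h') = 0 := by
          apply Affine.Point.add_of_Y_eq rfl
          rw [Affine.negY_negY]
          exact hy2.symm
        rw [h3, Affine.Point.sym2x_zero_zero]
        refine ⟨(W.a₁ * y' - (3 * x ^ 2 + 2 * W.a₂ * x + W.a₄)) ^ 2, pow_ne_zero 2 hn, ?_⟩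
        rw [hu] at k1 k2
        funext i
        fin_cases i
        · simp only [WeierstrassCurve.b₄, WeierstrassCurve.b₆, WeierstrassCurve.b₈,
            Fin.zero_eta, Matrix.cons_val_zero, Matrix.cons_val_one, Matrix.cons_val,
            Pi.smul_apply, smul_eq_mul]
          linear_combination (-1 : F) * k2
        · simp only [WeierstrassCurve.b₂, WeierstrassCurve.b₄, WeierstrassCurve.b₆,
            Fin.mk_one, Matrix.cons_val_one, Matrix.cons_val_zero, Matrix.cons_val,
            Pi.smul_apply, smul_eq_mul]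
          linear_combination (-1 : F) * k1
        · simp only [Fin.reduceFinMk, Matrix.cons_val, Matrix.cons_val_zero, Matrix.cons_val_one,
            Pi.smul_apply, smul_eq_mul]
          ring
      · have hy3 : W.negY x y' ≠ W.negY x (W.negY x y') := by
          rw [Affine.negY_negY]
          exact fun h0 => hy2 h0.symm
        rw [Affine.Point.add_of_Y_eq rfl rfl, Affine.Point.add_of_Y_ne hy3,
          Affine.Point.sym2x_zero_some]
        exact dbl hy3
  · -- the generic case
    rw [Affine.Point.add_of_X_ne hx, Affine.Point.add_of_X_ne hx,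
      Affine.Point.sym2x_some_some]
    have hd : x - x' ≠ 0 := sub_ne_zero.2 hx
    have hl : W.slope x x' y y' * (x - x') = y - y' := by
      rw [Affine.slope_of_X_ne hx, div_mul_cancel₀ _ hd]
    have hl' : W.slope x x' y (W.negY x' y') * (x - x') = y - (-y' - W.a₁ * x' - W.a₃) := by
      rw [Affine.slope_of_X_ne hx, div_mul_cancel₀ _ hd]
      rfl
    obtain ⟨k1, k2⟩ := core_add hE hE' hx hl hl'
    refine ⟨(x - x') ^ 2, pow_ne_zero 2 hd, ?_⟩
    generalize W.slope x x' y y' = l at *
    generalize W.slope x x' y (W.negY x' y') = l' at *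
    funext i
    fin_cases i
    · simp only [Affine.addX, WeierstrassCurve.b₄, WeierstrassCurve.b₆, WeierstrassCurve.b₈,
        Fin.zero_eta, Matrix.cons_val_zero, Matrix.cons_val_one, Matrix.cons_val,
        Pi.smul_apply, smul_eq_mul]
      linear_combination (-1 : F) * k2
    · simp only [Affine.addX, WeierstrassCurve.b₂, WeierstrassCurve.b₄, WeierstrassCurve.b₆,
        Fin.mk_one, Matrix.cons_val_one, Matrix.cons_val_zero, Matrix.cons_val,
        Pi.smul_apply, smul_eq_mul]
      linear_combination (-1 : F) * k1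
    · simp only [Fin.reduceFinMk, Matrix.cons_val, Matrix.cons_val_zero, Matrix.cons_val_one,
        Pi.smul_apply, smul_eq_mul]
      ring

end Pool.Agent.FS
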