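import Pool.Agent.FS.Sep

namespace Pool.Agent.FS

open Polynomial Finset

section hom
variable {F : Type*} [CommRing F]

/-- homogenisation of degree `n` -/
noncomputable def hom (n : ℕ) (h x y : F[X]) : F[X] :=
  ∑ j ∈ Finset.range (n + 1), C (h.coeff j) * x ^ j * y ^ (n - j)

theorem hom_add (n : ℕ) (h g x y : F[X]) : hom n (h + g) x y = hom n h x y + hom n g x y := by
  simp only [hom, coeff_add, C_add, add_mul, Finset.sum_add_distrib]

theorem hom_C_mul (n : ℕ) (c : F) (h x y : F[X]) : hom n (C c * h) x y = C c * hom n h x y := by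
  simp only [hom, coeff_C_mul, C_mul, Finset.mul_sum, mul_assoc]

theorem hom_X_mul (n : ℕ) (h x y : F[X]) : hom (n + 1) (X * h) x y = x * hom n h x y := by
  rw [hom, hom, Finset.sum_range_succ', Finset.mul_sum]
  simp only [mul_coeff_zero, coeff_X_zero, zero_mul, C_0, add_zero]
  refine Finset.sum_congr rfl fun j _ => ?_
  rw [coeff_X_mul, Nat.add_sub_add_right]
  ring

theorem hom_succ (n : ℕ) (h x y : F[X]) (hn : h.coeff (n + 1) = 0) :
    hom (n + 1) h x y = y * hom n h x y := by
  rw [hom, hom, Finset.sum_range_succ, hn, C_0, zero_mul, zero_mul, add_zero, Finset.mul_sum]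
  refine Finset.sum_congr rfl fun j hj => ?_
  rw [mem_range] at hj
  rw [show n + 1 - j = (n - j) + 1 by omega]
  ring

/-- the quotient rule -/
theorem hom_deriv (n : ℕ) (h x y : F[X]) :
    y * derivative (hom (n + 1) h x y) =
      ((n : F[X]) + 1) * derivative y * hom (n + 1) h x y +
        (y * derivative x - x * derivative y) * hom n (derivative h) x y := by
  have e1 : hom n (derivative h) x y =
      ∑ j ∈ Finset.range (n + 1 + 1), C (h.coeff j) * (j : F[X]) * x ^ (j - 1) * y ^ (n + 1 - j) := by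
    rw [hom, Finset.sum_range_succ' _ (n + 1)]
    simp only [Nat.cast_zero, mul_zero, zero_mul, add_zero]
    refine Finset.sum_congr rfl fun j _ => ?_
    rw [coeff_derivative, Nat.add_sub_add_right n 1 j, Nat.add_sub_cancel, C_mul, C_add, C_1]
    push_cast
    simp only [map_natCast]
  rw [e1, hom, derivative_sum, Finset.mul_sum, Finset.mul_sum, Finset.mul_sum,
    ← Finset.sum_add_distrib]
  refine Finset.sum_congr rfl fun j hj => ?_
  rw [mem_range] at hj
  obtain ⟨i, hi⟩ : ∃ i, n + 1 = j + i := ⟨n + 1 - j, by omega⟩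
  have hc : (n : F[X]) + 1 = (j : F[X]) + (i : F[X]) := by
    have := congrArg (Nat.cast (R := F[X])) hi
    push_cast at this
    exact this
  rw [hc, hi, Nat.add_sub_cancel_left]
  rw [derivative_mul, derivative_C_mul, derivative_pow, derivative_pow]
  rcases i with _ | i <;> rcases j with _ | j <;>
    simp only [Nat.cast_zero, Nat.cast_add, Nat.cast_one, pow_zero, Nat.add_sub_cancel, C_0,
      zero_mul, mul_zero, mul_one, add_zero, zero_add, map_natCast, C_add, C_1] <;> ring

theorem hom_eval (n : ℕ) (h x y : F[X]) (t : F) :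
    (hom n h x y).eval t =
      ∑ j ∈ Finset.range (n + 1), h.coeff j * x.eval t ^ j * y.eval t ^ (n - j) := by
  simp [hom, eval_finsetSum]

theorem hom_eval_of_eq (n : ℕ) (h x y : F[X]) (t : F) (hxy : x.eval t = y.eval t)
    (hn : h.natDegree ≤ n) :
    (hom n h x y).eval t = y.eval t ^ n * h.eval 1 := by
  rw [hom_eval, eval_eq_sum_range' (Nat.lt_succ_of_le hn), Finset.mul_sum]
  refine Finset.sum_congr rfl fun j hj => ?_
  rw [mem_range] at hj
  rw [hxy, mul_assoc, ← pow_add, show j + (n - j) = n by omega, one_pow]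
  ring

theorem hom_natDegree_le (n : ℕ) (h x y : F[X]) (N : ℕ) (hx : x.natDegree ≤ N)
    (hy : y.natDegree ≤ N) : (hom n h x y).natDegree ≤ N * n := by
  refine natDegree_sum_le_of_forall_le _ _ fun j hj => ?_
  rw [mem_range] at hj
  refine (natDegree_mul_le).trans ?_
  have h1 : (C (h.coeff j) * x ^ j).natDegree ≤ N * j := by
    refine (natDegree_C_mul_le _ _).trans ((natDegree_pow_le).trans ?_)
    rw [mul_comm]; exact Nat.mul_le_mul_right _ hx
  have h2 : (y ^ (n - j)).natDegree ≤ N * (n - j) := by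
    refine (natDegree_pow_le).trans ?_
    rw [mul_comm]; exact Nat.mul_le_mul_right _ hy
  calc _ ≤ N * j + N * (n - j) := Nat.add_le_add h1 h2
    _ = N * n := by rw [← Nat.mul_add]; congr 1; omega

end hom

section field
variable {F : Type*} [Field F]

theorem hom_eval_div (n : ℕ) (h x y : F[X]) (t : F) (hy : y.eval t ≠ 0) (hn : h.natDegree ≤ n) :
    (hom n h x y).eval t = y.eval t ^ n * h.eval (x.eval t / y.eval t) := by
  rw [hom_eval, eval_eq_sum_range' (Nat.lt_succ_of_le hn), Finset.mul_sum]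
  refine Finset.sum_congr rfl fun j hj => ?_
  rw [mem_range] at hj
  rw [show y.eval t ^ n = y.eval t ^ (n - j) * y.eval t ^ j by rw [← pow_add]; congr 1; omega,
    div_pow]
  field_simp

/-- homogeneous form of the hypergeometric equation -/
theorem HH_hom (p : ℕ) (hp : Odd p) [CharP F p] (k : ℕ) (hk : (p - 1) / 2 = k + 2) (x y : F[X]) :
    4 * x * (y - x) * hom k (derivative (derivative (HH F p))) x y +
      4 * (y - 2 * x) * hom (k + 1) (derivative (HH F p)) x y = hom (k + 2) (HH F p) x y := by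
  have hd : ∀ j, k + 2 < j → (HH F p).coeff j = 0 := by
    intro j hj
    rw [HH_coeff, hk, Nat.choose_eq_zero_of_lt hj]; simp
  have e := HH_ode (F := F) p hp
  set H := HH F p with hH
  have e' : H = C 4 * (X * derivative (derivative H)) +
      C (-4) * (X * (X * derivative (derivative H))) + C 4 * derivative H +
      C (-8) * (X * derivative H) := by
    have c4 : (C (4 : F) : F[X]) = 4 := rfl
    have c4' : (C (-4 : F) : F[X]) = -4 := by rw [C_neg, c4]
    have c8 : (C (-8 : F) : F[X]) = -8 := by rw [C_neg]; rfl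
    rw [c4, c4', c8]
    linear_combination -e
  have e2 := congrArg (fun h => hom (k + 2) h x y) e'
  simp only [hom_add, hom_C_mul, hom_X_mul] at e2
  rw [hom_succ (k + 1) (derivative H) x y (by rw [coeff_derivative, hd _ (by omega), zero_mul]),
    hom_succ k (derivative (derivative H)) x y
      (by rw [coeff_derivative, coeff_derivative, hd _ (by omega), zero_mul, zero_mul])] at e2
  have c4 : (C (4 : F) : F[X]) = 4 := rfl
  have c4' : (C (-4 : F) : F[X]) = -4 := by rw [C_neg, c4]
  have c8 : (C (-8 : F) : F[X]) = -8 := by rw [C_neg]; rfl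
  rw [c4, c4', c8] at e2
  linear_combination -e2

/-- the common equation of level 3 -/
def Ode (Y : F[X]) : Prop :=
  (1 + 2 * X) * (X * (2 + X) * (1 - X ^ 2)) * derivative (derivative Y) +
    (2 + 10 * X - 20 * X ^ 3 - 10 * X ^ 4) * derivative Y + (2 - 12 * X ^ 2 - 8 * X ^ 3) * Y = 0

theorem v_ne : (1 + 2 * X : F[X]) ≠ 0 := by
  intro h
  have := congrArg (Polynomial.eval 0) h
  simp at this

theorem ode_A (p : ℕ) (hp : Odd p) [CharP F p] (k : ℕ) (hk : (p - 1) / 2 = k + 2) :
    Ode (hom (k + 2) (HH F p) (X * (2 + X) ^ 3) ((1 + 2 * X) ^ 3)) := by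
  have r := HH_hom (F := F) p hp k hk (X * (2 + X) ^ 3) ((1 + 2 * X) ^ 3)
  have d0 := hom_deriv (k + 1) (HH F p) (X * (2 + X) ^ 3) ((1 + 2 * X) ^ 3)
  have d1 := hom_deriv k (derivative (HH F p)) (X * (2 + X) ^ 3) ((1 + 2 * X) ^ 3)
  have hm : (2 * ((k : F[X]) + 1 + 1) : F[X]) = -1 := by
    have := congrArg (C : F → F[X]) (two_m (F := F) p hp)
    rw [hk] at this
    simp only [C_mul, C_neg, C_1, map_natCast] at this
    push_cast at this
    have c2 : (C (2 : F) : F[X]) = 2 := rfl
    rw [c2] at this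
    linear_combination this
  have v0 := v_ne (F := F)
  set G0 := hom (k + 2) (HH F p) (X * (2 + X) ^ 3) ((1 + 2 * X) ^ 3) with hG0
  set G1 := hom (k + 1) (derivative (HH F p)) (X * (2 + X) ^ 3) ((1 + 2 * X) ^ 3) with hG1
  set G2 := hom k (derivative (derivative (HH F p))) (X * (2 + X) ^ 3) ((1 + 2 * X) ^ 3) with hG2
  have dx : derivative (X * (2 + X) ^ 3 : F[X]) = (2 + X) ^ 3 + 3 * X * (2 + X) ^ 2 := by
    simp only [derivative_mul, derivative_X, derivative_pow, derivative_add, derivative_ofNat]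
    have c3 : (C ((3 : ℕ) : F) : F[X]) = 3 := by rw [Nat.cast_ofNat]; exact map_ofNat C 3
    rw [c3]; ring
  have dy : derivative ((1 + 2 * X) ^ 3 : F[X]) = 6 * (1 + 2 * X) ^ 2 := by
    simp only [derivative_mul, derivative_X, derivative_pow, derivative_add, derivative_ofNat,
      derivative_one]
    have c3 : (C ((3 : ℕ) : F) : F[X]) = 3 := by rw [Nat.cast_ofNat]; exact map_ofNat C 3
    rw [c3]; ring
  rw [dx, dy] at d0 d1
  push_cast at d0
  have D0 : (1 + 2 * X) * derivative G0 = -3 * G0 + 2 * (2 + X) ^ 2 * (1 - X) ^ 2 * G1 := by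
    refine mul_left_cancel₀ (pow_ne_zero 2 v0) ?_
    linear_combination d0 + 3 * (1 + 2 * X) ^ 2 * G0 * hm
  have D1 : (1 + 2 * X) * derivative G1 = -9 * G1 + 2 * (2 + X) ^ 2 * (1 - X) ^ 2 * G2 := by
    refine mul_left_cancel₀ (pow_ne_zero 2 v0) ?_
    linear_combination d1 + 3 * (1 + 2 * X) ^ 2 * G1 * hm
  have D2 := congrArg derivative D0
  simp only [derivative_mul, derivative_X, derivative_pow, derivative_add, derivative_ofNat,
      derivative_one, derivative_sub, derivative_neg] at D2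
  have c2 : (C ((2 : ℕ) : F) : F[X]) = 2 := by rw [Nat.cast_ofNat]; exact map_ofNat C 2
  rw [c2] at D2
  refine mul_left_cancel₀ v0 ?_
  rw [mul_zero]
  set P : F[X] := X * (2 + X) * (1 - X ^ 2) with hP
  set Q1 : F[X] := 2 + 10 * X - 20 * X ^ 3 - 10 * X ^ 4 with hQ1
  have D2' : (1 + 2 * X) * derivative (derivative G0) = -5 * derivative G0 +
      (4 * (2 + X) * (1 - X) ^ 2 - 4 * (2 + X) ^ 2 * (1 - X)) * G1 +
        2 * (2 + X) ^ 2 * (1 - X) ^ 2 * derivative G1 := by
    linear_combination D2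
  have E : (1 + 2 * X) * ((1 + 2 * X) * P * derivative (derivative G0) + Q1 * derivative G0 +
      (2 - 12 * X ^ 2 - 8 * X ^ 3) * G0) =
      (Q1 - 5 * P) * (-3 * G0 + 2 * (2 + X) ^ 2 * (1 - X) ^ 2 * G1) +
      P * (1 + 2 * X) * ((4 * (2 + X) * (1 - X) ^ 2 - 4 * (2 + X) ^ 2 * (1 - X)) * G1) +
      P * (2 * (2 + X) ^ 2 * (1 - X) ^ 2) * (-9 * G1 + 2 * (2 + X) ^ 2 * (1 - X) ^ 2 * G2) +
      (1 + 2 * X) * (2 - 12 * X ^ 2 - 8 * X ^ 3) * G0 := by
    linear_combination (1 + 2 * X) * P * D2' + (Q1 - 5 * P) * D0 +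
      P * (2 * (2 + X) ^ 2 * (1 - X) ^ 2) * D1
  rw [E, hP, hQ1]
  linear_combination (2 + X) ^ 2 * (1 - X) ^ 2 * r

theorem ode_B (p : ℕ) (hp : Odd p) [CharP F p] (k : ℕ) (hk : (p - 1) / 2 = k + 2) :
    Ode (hom (k + 2) (HH F p) (X ^ 3 * (2 + X)) (1 + 2 * X)) := by
  have r := HH_hom (F := F) p hp k hk (X ^ 3 * (2 + X)) (1 + 2 * X)
  have d0 := hom_deriv (k + 1) (HH F p) (X ^ 3 * (2 + X)) (1 + 2 * X)
  have d1 := hom_deriv k (derivative (HH F p)) (X ^ 3 * (2 + X)) (1 + 2 * X)
  have hm : (2 * ((k : F[X]) + 1 + 1) : F[X]) = -1 := by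
    have := congrArg (C : F → F[X]) (two_m (F := F) p hp)
    rw [hk] at this
    simp only [C_mul, C_neg, C_1, map_natCast] at this
    push_cast at this
    have c2 : (C (2 : F) : F[X]) = 2 := rfl
    rw [c2] at this
    linear_combination this
  have v0 := v_ne (F := F)
  set G0 := hom (k + 2) (HH F p) (X ^ 3 * (2 + X)) (1 + 2 * X) with hG0
  set G1 := hom (k + 1) (derivative (HH F p)) (X ^ 3 * (2 + X)) (1 + 2 * X) with hG1
  set G2 := hom k (derivative (derivative (HH F p))) (X ^ 3 * (2 + X)) (1 + 2 * X) with hG2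
  have dx : derivative (X ^ 3 * (2 + X) : F[X]) = 3 * X ^ 2 * (2 + X) + X ^ 3 := by
    simp only [derivative_mul, derivative_X, derivative_pow, derivative_add, derivative_ofNat]
    have c3 : (C ((3 : ℕ) : F) : F[X]) = 3 := by rw [Nat.cast_ofNat]; exact map_ofNat C 3
    rw [c3]; ring
  have dy : derivative (1 + 2 * X : F[X]) = 2 := by
    simp only [derivative_mul, derivative_X, derivative_add, derivative_ofNat, derivative_one]
    ring
  rw [dx, dy] at d0 d1
  push_cast at d0
  have D0 : (1 + 2 * X) * derivative G0 = -G0 + 6 * X ^ 2 * (1 + X) ^ 2 * G1 := by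
    linear_combination d0 + G0 * hm
  have D1 : (1 + 2 * X) * derivative G1 = -3 * G1 + 6 * X ^ 2 * (1 + X) ^ 2 * G2 := by
    linear_combination d1 + G1 * hm
  have D2 := congrArg derivative D0
  simp only [derivative_mul, derivative_X, derivative_pow, derivative_add, derivative_ofNat,
      derivative_one, derivative_neg] at D2
  have c2 : (C ((2 : ℕ) : F) : F[X]) = 2 := by rw [Nat.cast_ofNat]; exact map_ofNat C 2
  rw [c2] at D2
  refine mul_left_cancel₀ v0 ?_
  rw [mul_zero]
  set P : F[X] := X * (2 + X) * (1 - X ^ 2) with hP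
  set Q1 : F[X] := 2 + 10 * X - 20 * X ^ 3 - 10 * X ^ 4 with hQ1
  have D2' : (1 + 2 * X) * derivative (derivative G0) = -3 * derivative G0 +
      (12 * X * (1 + X) ^ 2 + 12 * X ^ 2 * (1 + X)) * G1 +
        6 * X ^ 2 * (1 + X) ^ 2 * derivative G1 := by
    linear_combination D2
  have E : (1 + 2 * X) * ((1 + 2 * X) * P * derivative (derivative G0) + Q1 * derivative G0 +
      (2 - 12 * X ^ 2 - 8 * X ^ 3) * G0) =
      (Q1 - 3 * P) * (-G0 + 6 * X ^ 2 * (1 + X) ^ 2 * G1) +
      P * (1 + 2 * X) * ((12 * X * (1 + X) ^ 2 + 12 * X ^ 2 * (1 + X)) * G1) +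
      P * (6 * X ^ 2 * (1 + X) ^ 2) * (-3 * G1 + 6 * X ^ 2 * (1 + X) ^ 2 * G2) +
      (1 + 2 * X) * (2 - 12 * X ^ 2 - 8 * X ^ 3) * G0 := by
    linear_combination (1 + 2 * X) * P * D2' + (Q1 - 3 * P) * D0 +
      P * (6 * X ^ 2 * (1 + X) ^ 2) * D1
  rw [E, hP, hQ1]
  linear_combination 9 * X ^ 2 * (1 + X) ^ 2 * r

/-- Frobenius: at a regular singular point with exponents `0, 0` a solution which vanishes there
vanishes to order at least `p` -/
theorem order_ge (p : ℕ) [CharP F p] (c α : F) (hα : α ≠ 0) (A B Z E : F[X])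
    (hA : A.eval c = α) (hB : B.eval c = α) (hE0 : E ≠ 0) (hE : E.eval c = 0)
    (h : (X - C c) * A * derivative (derivative E) + B * derivative E + Z * E = 0) :
    (X - C c) ^ p ∣ E := by
  classical
  by_contra hd
  obtain ⟨G, hG, hG2⟩ := E.exists_eq_pow_rootMultiplicity_mul_and_not_dvd hE0 c
  set r := E.rootMultiplicity c with hr
  have hr1 : 0 < r := (rootMultiplicity_pos hE0).2 hE
  have hrp : r < p := by
    by_contra hrp
    rw [not_lt] at hrp
    exact hd ((pow_dvd_pow _ hrp).trans (hG ▸ Dvd.intro _ rfl))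
  obtain ⟨s, hs⟩ : ∃ s, r = s + 1 := ⟨r - 1, by omega⟩
  rw [hs] at hG
  have e1 : derivative E = (X - C c) ^ s * (((s : F[X]) + 1) * G + (X - C c) * derivative G) := by
    rw [hG, derivative_mul, derivative_X_sub_C_pow, Nat.add_sub_cancel, map_natCast]
    push_cast
    ring
  have e2 : (X - C c) * derivative (derivative E) =
      (X - C c) ^ s * ((s : F[X]) * (((s : F[X]) + 1) * G + (X - C c) * derivative G) +
        (X - C c) * (((s : F[X]) + 1) * derivative G + derivative G +
          (X - C c) * derivative (derivative G))) := by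
    rw [e1, derivative_mul, derivative_X_sub_C_pow]
    have e3 : derivative (((s : F[X]) + 1) * G + (X - C c) * derivative G) =
        ((s : F[X]) + 1) * derivative G + derivative G + (X - C c) * derivative (derivative G) := by
      simp only [derivative_add, derivative_mul, derivative_natCast, derivative_one, derivative_sub,
        derivative_X, derivative_C]
      ring
    rw [e3, map_natCast]
    rcases s with _ | s
    · simp
    · rw [Nat.add_sub_cancel]
      push_cast
      ring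
  have e4 : (X - C c) ^ s * (A * ((s : F[X]) * (((s : F[X]) + 1) * G + (X - C c) * derivative G) +
        (X - C c) * (((s : F[X]) + 1) * derivative G + derivative G +
          (X - C c) * derivative (derivative G))) +
      B * (((s : F[X]) + 1) * G + (X - C c) * derivative G) + Z * ((X - C c) * G)) = 0 := by
    rw [← h]
    have e5 : (X - C c) * A * derivative (derivative E) =
      A * ((X - C c) * derivative (derivative E)) := by ring
    rw [e5, e2, e1]
    conv_rhs => rw [hG]
    ring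
  have e6 := (mul_eq_zero.1 e4).resolve_left (pow_ne_zero _ (X_sub_C_ne_zero c))
  have e7 := congrArg (Polynomial.eval c) e6
  simp only [eval_add, eval_mul, eval_sub, eval_X, eval_C, eval_natCast, eval_one, sub_self,
    zero_mul, mul_zero, add_zero, eval_zero, hA, hB] at e7
  have e8 : α * ((s : F) + 1) ^ 2 * G.eval c = 0 := by linear_combination e7
  have hGc : G.eval c ≠ 0 := fun h0 => hG2 (dvd_iff_isRoot.2 h0)
  have hs1 : ((s : F) + 1) ≠ 0 := by
    intro h0
    have : ((s + 1 : ℕ) : F) = 0 := by push_cast; exact h0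
    rw [CharP.cast_eq_zero_iff F p] at this
    have := Nat.le_of_dvd (by omega) this
    omega
  exact mul_ne_zero (mul_ne_zero hα (pow_ne_zero 2 hs1)) hGc e8

theorem ode_unique (p : ℕ) (hp5 : 5 ≤ p) [CharP F p] {E : F[X]} (h : Ode E)
    (h0 : E.eval 0 = 0) (h1 : E.eval 1 = 0) (hd : E.natDegree < 2 * p) : E = 0 := by
  by_contra hE
  have hne : ∀ n : ℕ, 0 < n → n < p → (n : F) ≠ 0 := by
    intro n hn hnp h
    rw [CharP.cast_eq_zero_iff F p] at h
    have := Nat.le_of_dvd hn h
    omega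
  have h2 : (2 : F) ≠ 0 := by exact_mod_cast hne 2 (by omega) (by omega)
  have h3 : (3 : F) ≠ 0 := by exact_mod_cast hne 3 (by omega) (by omega)
  have d0 : (X - C 0) ^ p ∣ E := by
    refine order_ge p 0 2 h2 ((1 + 2 * X) * ((2 + X) * (1 - X ^ 2)))
      (2 + 10 * X - 20 * X ^ 3 - 10 * X ^ 4) (2 - 12 * X ^ 2 - 8 * X ^ 3) E
      (by simp) (by simp) hE h0 ?_
    rw [Ode] at h
    rw [C_0]
    linear_combination h
  have d1 : (X - C 1) ^ p ∣ E := by
    refine order_ge p 1 (-18) ?_ (-((1 + 2 * X) * (X * (2 + X) * (1 + X))))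
      (2 + 10 * X - 20 * X ^ 3 - 10 * X ^ 4) (2 - 12 * X ^ 2 - 8 * X ^ 3) E
      (by simp; norm_num) (by simp; norm_num) hE h1 ?_
    · have : (-18 : F) = -(2 * (3 * 3)) := by norm_num
      rw [this]
      exact neg_ne_zero.2 (mul_ne_zero h2 (mul_ne_zero h3 h3))
    · rw [Ode] at h
      rw [C_1]
      linear_combination h
  have hc : IsCoprime ((X - C (0 : F)) ^ p) ((X - C (1 : F)) ^ p) :=
    (isCoprime_X_sub_C_of_isUnit_sub (by simp)).pow
  have hdiv := hc.mul_dvd d0 d1
  have := natDegree_le_of_dvd hdiv hE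
  rw [natDegree_mul (pow_ne_zero _ (X_sub_C_ne_zero _)) (pow_ne_zero _ (X_sub_C_ne_zero _)),
    natDegree_pow, natDegree_pow, natDegree_X_sub_C, natDegree_X_sub_C] at this
  omega

theorem hom_AB (p : ℕ) [hp : Fact p.Prime] (hp5 : 5 ≤ p) [CharP F p] :
    hom ((p - 1) / 2) (HH F p) (X * (2 + X) ^ 3) ((1 + 2 * X) ^ 3) =
      hom ((p - 1) / 2) (HH F p) (X ^ 3 * (2 + X)) (1 + 2 * X) := by
  have hodd : Odd p := hp.out.odd_of_ne_two (by omega)
  obtain ⟨k, hk⟩ : ∃ k, (p - 1) / 2 = k + 2 := ⟨(p - 1) / 2 - 2, by omega⟩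
  have hn : (HH F p).natDegree ≤ k + 2 := by rw [HH_natDegree, hk]
  have hA := ode_A (F := F) p hodd k hk
  have hB := ode_B (F := F) p hodd k hk
  rw [hk]
  set YA := hom (k + 2) (HH F p) (X * (2 + X) ^ 3) ((1 + 2 * X) ^ 3) with hYA
  set YB := hom (k + 2) (HH F p) (X ^ 3 * (2 + X)) (1 + 2 * X) with hYB
  have hO : Ode (YA - YB) := by
    rw [Ode] at hA hB ⊢
    rw [derivative_sub, derivative_sub]
    linear_combination hA - hB
  rw [← sub_eq_zero]
  refine ode_unique p hp5 hO ?_ ?_ ?_
  · rw [eval_sub, hYA, hYB, hom_eval_div _ _ _ _ _ (by simp) hn,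
      hom_eval_div _ _ _ _ _ (by simp) hn]
    simp
  · rw [eval_sub, hYA, hYB, hom_eval_of_eq _ _ _ _ _ (by simp; norm_num) hn,
      hom_eval_of_eq _ _ _ _ _ (by simp; norm_num) hn]
    have h3 : (3 : F) ^ (p - 1) = 1 := by
      have h3p : (3 : F) ^ p = 3 := by
        have := map_natCast (frobenius F p) 3
        rw [frobenius_def] at this
        exact_mod_cast this
      have h30 : (3 : F) ≠ 0 := by
        intro h
        have : ((3 : ℕ) : F) = 0 := by exact_mod_cast h
        rw [CharP.cast_eq_zero_iff F p] at this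
        have := Nat.le_of_dvd (by norm_num) this
        omega
      refine mul_right_cancel₀ h30 ?_
      rw [← pow_succ, Nat.sub_add_cancel (by omega), h3p, one_mul]
    have e1 : ((1 + 2 * X : F[X]) ^ 3).eval 1 ^ (k + 2) = 3 ^ (k + 2) * 3 ^ (p - 1) := by
      simp only [eval_pow, eval_add, eval_one, eval_mul, eval_ofNat, eval_X]
      rw [← pow_mul, ← pow_add]
      norm_num
      congr 1
      obtain ⟨i, hi⟩ := hodd
      omega
    have e2 : (1 + 2 * X : F[X]).eval 1 ^ (k + 2) = 3 ^ (k + 2) := by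
      simp only [eval_add, eval_one, eval_mul, eval_ofNat, eval_X]
      norm_num
    rw [e1, e2, h3]
    ring
  · have a1 : YA.natDegree ≤ 4 * (k + 2) := by
      refine hom_natDegree_le _ _ _ _ 4 ?_ ?_
      · compute_degree
      · compute_degree
        norm_num
    have a2 : YB.natDegree ≤ 4 * (k + 2) := by
      refine hom_natDegree_le _ _ _ _ 4 ?_ ?_
      · compute_degree
      · compute_degree
        norm_num
    have a3 := natDegree_sub_le YA YB
    omega

/-- the modular step of level 3 -/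
theorem cub_step (p : ℕ) [hp : Fact p.Prime] (hp5 : 5 ≤ p) [CharP F p] {W : F} (hW : W ≠ 0)
    (h : (HH F p).eval ((W - 1) * (W + 3) ^ 3 / (16 * W ^ 3)) = 0) :
    (HH F p).eval ((W - 1) ^ 3 * (W + 3) / (16 * W)) = 0 := by
  have h2 : (2 : F) ≠ 0 := by
    intro h
    have : ((2 : ℕ) : F) = 0 := by exact_mod_cast h
    rw [CharP.cast_eq_zero_iff F p] at this
    have := Nat.le_of_dvd (by norm_num) this
    omega
  have h16 : (16 : F) ≠ 0 := by
    have : (16 : F) = 2 ^ 4 := by norm_num
    rw [this]; exact pow_ne_zero _ h2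
  have hn : (HH F p).natDegree ≤ (p - 1) / 2 := by rw [HH_natDegree]
  have e := congrArg (Polynomial.eval ((W - 1) / 2)) (hom_AB (F := F) p hp5)
  have hv : (1 + 2 * X : F[X]).eval ((W - 1) / 2) = W := by
    simp only [eval_add, eval_one, eval_mul, eval_ofNat, eval_X]
    field_simp
    ring
  have hx1 : (X * (2 + X) ^ 3 : F[X]).eval ((W - 1) / 2) = (W - 1) * (W + 3) ^ 3 / 16 := by
    simp only [eval_add, eval_mul, eval_ofNat, eval_X, eval_pow]
    field_simp
    ring
  have hx2 : (X ^ 3 * (2 + X) : F[X]).eval ((W - 1) / 2) = (W - 1) ^ 3 * (W + 3) / 16 := by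
    simp only [eval_add, eval_mul, eval_ofNat, eval_X, eval_pow]
    field_simp
    ring
  have hv3 : ((1 + 2 * X : F[X]) ^ 3).eval ((W - 1) / 2) = W ^ 3 := by rw [eval_pow, hv]
  rw [hom_eval_div _ _ _ _ _ (by rw [hv3]; exact pow_ne_zero _ hW) hn,
    hom_eval_div _ _ _ _ _ (by rw [hv]; exact hW) hn, hv3, hv, hx1, hx2, div_div, div_div, h,
    mul_zero] at e
  exact (mul_eq_zero.1 e.symm).resolve_left (pow_ne_zero _ hW)

end field

end Pool.Agent.FS
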