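import Mathlib
import Pool.Agent.FY.Deg
import Pool.Agent.FS.CntA

/-! # The zeros of the Hasse polynomial lie in the field with `p ^ 2` elements

`MP_e9b03e_nt`, theorem T2, step A6. -/

set_option autoImplicit false

namespace Pool.Agent.FS

open Polynomial WeierstrassCurve Pool.Agent.FY

theorem descend {F Om : Type*} [Field F] [Field Om] [Algebra F Om] [DecidableEq F]
    [DecidableEq Om] (W : WeierstrassCurve F) (W1 : Affine F) (hW1 : W1 = W.baseChange F)
    (W2 : Affine Om) (hW2 : W2 = W.baseChange Om) (n : ℕ) (hn : ∀ P : W1.Point, n • P = 0 → P = 0)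
    (x y : F) (h : W2.Nonsingular (algebraMap F Om x) (algebraMap F Om y))
    (hP : n • (Affine.Point.some _ _ h : W2.Point) = 0) : False := by
  subst hW1 hW2
  have h' : (W.baseChange F).toAffine.Nonsingular x y :=
    (Affine.baseChange_nonsingular (W := W) (f := Algebra.ofId F Om)
      (Algebra.ofId F Om).injective x y).1 h
  have h1 : Affine.Point.map (W' := W) (Algebra.ofId F Om) (n • Affine.Point.some x y h') = 0 := by
    rw [map_nsmul, Affine.Point.map_some]
    exact hP
  have h2 : n • Affine.Point.some x y h' = 0 :=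
    Affine.Point.map_injective (W' := W) (Algebra.ofId F Om) (h1.trans (map_zero _).symm)
  exact Affine.Point.some_ne_zero _ (hn _ h2)

/-- No point of order `p` over the algebraic closure. -/
theorem no_order_p_bar {Om : Type*} [Field Om] [DecidableEq Om] (p : ℕ) [hpp : Fact p.Prime]
    [Algebra (ZMod p) Om] [Algebra.IsAlgebraic (ZMod p) Om] (hp : p ≠ 2) {lam : Om}
    (h0 : lam ≠ 0) (h1 : lam ≠ 1) (hH : (HH Om p).eval lam = 0)
    (P : (legW lam).toAffine.Point) (hP : p • P = 0) : P = 0 := by
  classical
  rcases P with _ | ⟨x, y, h⟩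
  · rfl
  exfalso
  set F : IntermediateField (ZMod p) Om := IntermediateField.adjoin (ZMod p) {lam, x, y} with hF
  have hfd : FiniteDimensional (ZMod p) F := by
    refine IntermediateField.finiteDimensional_adjoin fun z _ => ?_
    exact (Algebra.IsAlgebraic.isAlgebraic z).isIntegral
  have hfin : Finite F := Module.finite_of_finite (ZMod p)
  have hcp : CharP F p := charP_of_injective_algebraMap (algebraMap (ZMod p) F).injective p
  have hl : lam ∈ F := IntermediateField.subset_adjoin _ _ (by simp)
  have hx : x ∈ F := IntermediateField.subset_adjoin _ _ (by simp)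
  have hy : y ∈ F := IntermediateField.subset_adjoin _ _ (by simp)
  set l : F := ⟨lam, hl⟩ with hldef
  have hl0 : l ≠ 0 := fun hh => h0 (congrArg Subtype.val hh)
  have hl1 : l ≠ 1 := fun hh => h1 (congrArg Subtype.val hh)
  have hHl : (HH F p).eval l = 0 := by
    apply (algebraMap F Om).injective
    rw [_root_.map_zero, ← eval_map_apply, HH_map]
    exact hH
  refine descend (legW l) (legW l).toAffine ?_ (legW lam).toAffine ?_ p
    (fun P hP => no_order_p p hp hl0 hl1 hHl P hP) ⟨x, hx⟩ ⟨y, hy⟩ h hP
  · ext <;> simp [legW, WeierstrassCurve.baseChange, WeierstrassCurve.map]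
  · ext <;> simp [legW, WeierstrassCurve.baseChange, WeierstrassCurve.map, hldef]

/-- a polynomial without zeros other than `0` is `a x ^ d` -/
theorem inj_poly {K : Type*} [Field K] [IsAlgClosed K] (A : K[X])
    (hi : ∀ x, A.eval x = 0 → x = 0) : A = C A.leadingCoeff * X ^ A.natDegree := by
  by_cases hA : A = 0
  · simp [hA]
  have hs := IsAlgClosed.splits A
  have hr : A.roots = Multiset.replicate A.natDegree 0 := by
    rw [Multiset.eq_replicate]
    refine ⟨(splits_iff_card_roots.1 hs), fun x hx => ?_⟩
    exact hi x ((mem_roots hA).1 hx)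
  have h1 := hs.eq_prod_roots
  rw [hr, Multiset.map_replicate, Multiset.prod_replicate, C_0, sub_zero] at h1
  exact h1

theorem smul_two_torsion {M : Type*} [AddCommGroup M] {T : M} (hT : T + T = 0) {p : ℕ}
    (hp : Odd p) : p • T = T := by
  obtain ⟨m, rfl⟩ := hp
  rw [add_nsmul, mul_comm, mul_nsmul', two_nsmul, hT, one_nsmul, nsmul_zero, zero_add]

/-- **A6**: the zeros of the Hasse polynomial lie in the field with `p ^ 2` elements. -/
theorem frob {Om : Type*} [Field Om] [IsAlgClosed Om] (p : ℕ) [hpp : Fact p.Prime]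
    [Algebra (ZMod p) Om] [Algebra.IsAlgebraic (ZMod p) Om] (hp : p ≠ 2) {lam : Om}
    (h0 : lam ≠ 0) (h1 : lam ≠ 1) (hH : (HH Om p).eval lam = 0) : lam ^ (p ^ 2) = lam := by
  classical
  have hcp : CharP Om p := charP_of_injective_algebraMap (algebraMap (ZMod p) Om).injective p
  have hodd : Odd p := hpp.out.odd_of_ne_two hp
  have h2 : (2 : Om) ≠ 0 := by
    intro h
    have h3 : ((2 : ℕ) : Om) = 0 := by exact_mod_cast h
    rw [CharP.cast_eq_zero_iff Om p] at h3
    exact hp ((Nat.prime_dvd_prime_iff_eq hpp.out Nat.prime_two).1 h3)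
  have hΔ : (legW lam).Δ ≠ 0 := by
    rw [legW_Δ]
    have h16 : (16 : Om) ≠ 0 := by
      have : (16 : Om) = 2 ^ 4 := by norm_num
      rw [this]
      exact pow_ne_zero _ h2
    exact mul_ne_zero (mul_ne_zero h16 (pow_ne_zero 2 h0)) (pow_ne_zero 2 (sub_ne_zero.2 h1))
  have : (legW lam).toAffine.IsElliptic := ⟨isUnit_iff_ne_zero.2 hΔ⟩
  have hinj : ∀ P : (legW lam).toAffine.Point, p • P = 0 → P = 0 := fun P hP =>
    no_order_p_bar p hp h0 h1 hH P hP
  obtain ⟨A, B, -, -, hB, hAB, hval⟩ := exists_smul' (legW lam).toAffine p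
  have hp2 : 0 < p ^ 2 := pow_pos hpp.out.pos 2
  -- the values
  have hv : ∀ (x y : Om) (h : (legW lam).toAffine.Nonsingular x y) (x' y' : Om)
      (h' : (legW lam).toAffine.Nonsingular x' y'),
      p • (Affine.Point.some x y h) = Affine.Point.some x' y' h' → B.eval x ≠ 0 ∧
        A.eval x = B.eval x * x' := by
    intro x y h x' y' h' hh
    obtain ⟨c, hc, hA, hB⟩ := hval x y h
    rw [hh, Affine.Point.xRep_some] at hA hB
    simp only [Matrix.cons_val_zero, Matrix.cons_val_one] at hA hB
    rw [mul_one] at hB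
    exact ⟨hB ▸ hc, by rw [hA, hB]⟩
  have hne : ∀ (x y : Om) (h : (legW lam).toAffine.Nonsingular x y), ∃ (x' y' : Om)
      (h' : (legW lam).toAffine.Nonsingular x' y'),
      p • (Affine.Point.some x y h) = Affine.Point.some x' y' h' := by
    intro x y h
    rcases hP : p • (Affine.Point.some x y h) with _ | ⟨x', y', h'⟩
    · exact absurd (hinj _ hP) (Affine.Point.some_ne_zero _)
    · exact ⟨x', y', h', rfl⟩
  -- `B` is constant
  have hB0 : ∀ x, B.eval x ≠ 0 := by
    intro x
    obtain ⟨y, h, -⟩ := exists_point (legW lam).toAffine x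
    obtain ⟨x', y', h', hh⟩ := hne x y h
    exact (hv x y h x' y' h' hh).1
  have hBd : B.natDegree = 0 := by
    by_contra hd
    obtain ⟨x, hx⟩ := IsAlgClosed.exists_root B (fun h => hd (natDegree_eq_of_degree_eq_some h))
    exact hB0 x hx
  obtain ⟨b, hb⟩ : ∃ b, B = C b := ⟨_, eq_C_of_natDegree_eq_zero hBd⟩
  have hb0 : b ≠ 0 := by
    have := hB0 0
    rwa [hb, eval_C] at this
  have hAd : A.natDegree = p ^ 2 := by
    rcases hAB with h | h
    · exact h
    · omega
  -- two-torsion points
  have htor : ∀ x : Om, x * (x - 1) * (x - lam) = 0 → A.eval x = b * x := by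
    intro x hx
    have hns : (legW lam).toAffine.Nonsingular x 0 := by
      rw [legW_nonsingular h2 h0 h1, hx]
      ring
    have hneg : (0 : Om) = (legW lam).toAffine.negY x 0 := by
      simp [Affine.negY, legW]
    have hT : (Affine.Point.some x 0 hns : (legW lam).toAffine.Point) +
        Affine.Point.some x 0 hns = 0 := Affine.Point.add_self_of_Y_eq hneg
    have := (hv x 0 hns x 0 hns (smul_two_torsion hT hodd)).2
    rwa [hb, eval_C] at this
  -- injectivity
  have hA1 : ∀ x, A.eval x = 0 → x = 0 := by
    intro x hx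
    obtain ⟨y, h, -⟩ := exists_point (legW lam).toAffine x
    obtain ⟨x', y', h', hh⟩ := hne x y h
    have hx' : x' = 0 := by
      have := (hv x y h x' y' h' hh).2
      rw [hx, hb, eval_C] at this
      exact (mul_eq_zero.1 this.symm).resolve_left hb0
    have hns : (legW lam).toAffine.Nonsingular 0 0 := by
      rw [legW_nonsingular h2 h0 h1]
      ring
    have hneg : (0 : Om) = (legW lam).toAffine.negY 0 0 := by
      simp [Affine.negY, legW]
    have hT : (Affine.Point.some 0 0 hns : (legW lam).toAffine.Point) +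
        Affine.Point.some 0 0 hns = 0 := Affine.Point.add_self_of_Y_eq hneg
    have hy' : (Affine.Point.some x' y' h' : (legW lam).toAffine.Point).xRep =
        (Affine.Point.some 0 0 hns : (legW lam).toAffine.Point).xRep := by
      rw [Affine.Point.xRep_some, Affine.Point.xRep_some, hx']
    have hpT := smul_two_torsion hT hodd
    have key : (Affine.Point.some x y h : (legW lam).toAffine.Point) =
        Affine.Point.some 0 0 hns := by
      rcases Affine.Point.eq_or_eq_neg_of_xRep_eq_xRep hy' with h3 | h3
      · rw [← sub_eq_zero]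
        refine hinj _ ?_
        rw [nsmul_sub, hh, hpT, h3, sub_self]
      · have h4 : -(Affine.Point.some 0 0 hns : (legW lam).toAffine.Point) =
            Affine.Point.some 0 0 hns := neg_eq_of_add_eq_zero_left hT
        rw [← sub_eq_zero]
        refine hinj _ ?_
        rw [nsmul_sub, hh, hpT, h3, h4, sub_self]
    exact (Affine.Point.some.inj key).1
  have hA2 := inj_poly A hA1
  rw [hAd] at hA2
  have e1 := htor 1 (by ring)
  have e2 := htor lam (by ring)
  rw [hA2] at e1 e2
  simp only [eval_mul, eval_C, eval_pow, eval_X, one_pow, mul_one] at e1 e2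
  rw [e1] at e2
  exact mul_left_cancel₀ hb0 e2

end Pool.Agent.FS
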