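import Pool.Agent.FO.Defs

/-!
# Fourth roots of the supersingular values, and the values of level three

Pure algebra: `Γ` is the set of the supersingular values in `k`, `Om` is an algebraically closed
extension of `k`.
-/

namespace Pool.Agent.FS

open Polynomial

/-- The properties of the set of the supersingular values which are used. -/
structure SigSet (k Om : Type*) [Field k] [Field Om] [Algebra k Om] (Γ : Finset k) : Prop where
  zero : (0 : k) ∉ Γ
  one : (1 : k) ∉ Γ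
  landen : ∀ v : Om, v ≠ 0 → v ^ 2 ≠ 1 → (∃ l ∈ Γ, v ^ 2 = algebraMap k Om l) →
    ∃ μ ∈ Γ, 4 * v * algebraMap k Om μ = (v + 1) ^ 2
  cubic : ∀ W : Om, W ≠ 0 → W ^ 2 ≠ 1 → W ^ 2 ≠ 9 →
    (∃ l ∈ Γ, 16 * W ^ 3 * algebraMap k Om l = (W - 1) * (W + 3) ^ 3) →
    ∃ μ ∈ Γ, 16 * W * algebraMap k Om μ = (W - 1) ^ 3 * (W + 3)

section

variable {k Om : Type*} [Field k] [Field Om] [Algebra k Om] {Γ : Finset k}

lemma am_inj {a b : k} (h : algebraMap k Om a = algebraMap k Om b) : a = b :=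
  (algebraMap k Om).injective h

lemma SigSet.ne_zero (hΓ : SigSet k Om Γ) {l : k} (hl : l ∈ Γ) : l ≠ 0 := by
  rintro rfl
  exact hΓ.zero hl

lemma SigSet.ne_one (hΓ : SigSet k Om Γ) {l : k} (hl : l ∈ Γ) : l ≠ 1 := by
  rintro rfl
  exact hΓ.one hl

/-- The Landen transformation inside `k`. -/
lemma SigSet.mu (hΓ : SigSet k Om Γ) {u l : k} (hl : l ∈ Γ) (hu : u ^ 2 = l) :
    ∃ μ ∈ Γ, 4 * u * μ = (u + 1) ^ 2 := by
  have hl0 := hΓ.ne_zero hl
  have hl1 := hΓ.ne_one hl
  obtain ⟨μ, hμ, h⟩ := hΓ.landen (algebraMap k Om u)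
    (by
      intro h
      rw [map_eq_zero] at h
      apply hl0
      rw [← hu, h]
      ring)
    (by
      intro h
      rw [← map_pow, hu, ← map_one (algebraMap k Om)] at h
      exact hl1 (am_inj h))
    ⟨l, hl, by rw [← map_pow, hu]⟩
  refine ⟨μ, hμ, am_inj (Om := Om) ?_⟩
  simp only [map_mul, map_pow, map_add, map_one, map_ofNat]
  exact h

lemma SigSet.sqrt [IsAlgClosed Om] (hΓ : SigSet k Om Γ) {i : k} (hi : i ^ 2 = -1) {l : k}
    (hl : l ∈ Γ) : ∃ u : k, u ^ 2 = l := by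
  have hl0 := hΓ.ne_zero hl
  have hl1 := hΓ.ne_one hl
  by_cases hm : l + 1 = 0
  · refine ⟨i, ?_⟩
    linear_combination hi - hm
  obtain ⟨v, hv⟩ : ∃ v : Om, v ^ 2 = algebraMap k Om l :=
    IsAlgClosed.exists_pow_nat_eq _ (by norm_num)
  have hv0 : v ≠ 0 := by
    rintro rfl
    apply hl0
    rw [← map_eq_zero (algebraMap k Om), ← hv]
    ring
  obtain ⟨μ, hμ, h⟩ := hΓ.landen v hv0
    (by
      intro h
      rw [hv, ← map_one (algebraMap k Om)] at h
      exact hl1 (am_inj h)) ⟨l, hl, hv⟩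
  have ht : v * algebraMap k Om (4 * μ - 2) = algebraMap k Om (l + 1) := by
    simp only [map_sub, map_mul, map_add, map_one, map_ofNat]
    rw [← hv]
    linear_combination h
  have ht0 : 4 * μ - 2 ≠ 0 := by
    intro h0
    rw [h0, map_zero, mul_zero] at ht
    exact hm ((map_eq_zero _).1 ht.symm)
  have ht0' : algebraMap k Om (4 * μ - 2) ≠ 0 := by
    rw [Ne, map_eq_zero]
    exact ht0
  refine ⟨(l + 1) / (4 * μ - 2), am_inj (Om := Om) ?_⟩
  rw [map_pow, map_div₀, ← ht, mul_div_cancel_right₀ _ ht0', hv]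

lemma SigSet.four [IsAlgClosed Om] (hΓ : SigSet k Om Γ) (h2 : (2 : k) ≠ 0) {i : k}
    (hi : i ^ 2 = -1) {l : k} (hl : l ∈ Γ) : ∃ a : k, a ≠ 0 ∧ a ^ 4 = l := by
  obtain ⟨u, hu⟩ := hΓ.sqrt hi hl
  obtain ⟨μ, hμ, h⟩ := hΓ.mu hl hu
  obtain ⟨w, hw⟩ := hΓ.sqrt hi hμ
  have hw0 : w ≠ 0 := by
    rintro rfl
    apply hΓ.ne_zero hμ
    rw [← hw]
    ring
  have h1 : ((u + 1) / (2 * w)) ^ 2 = u := by
    rw [div_pow, div_eq_iff (pow_ne_zero 2 (mul_ne_zero h2 hw0)), ← h, ← hw]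
    ring
  have h4 : ((u + 1) / (2 * w)) ^ 4 = l := by
    rw [show (4 : ℕ) = 2 * 2 from rfl, pow_mul, h1, hu]
  refine ⟨(u + 1) / (2 * w), ?_, h4⟩
  intro h0
  apply hΓ.ne_zero hl
  rw [← h4, h0]
  ring

/-- The four fourth roots. -/
lemma card_four (h2 : (2 : k) ≠ 0) {i : k} (hi : i ^ 2 = -1) {a : k} (ha : a ≠ 0) [DecidableEq k] :
    (nthRoots 4 (a ^ 4)).toFinset.card = 4 := by
  have hi0 : i ≠ 0 := by
    rintro rfl
    have : (0 : k) ^ 2 = -1 := hi
    rw [zero_pow two_ne_zero] at this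
    exact one_ne_zero (neg_eq_zero.1 this.symm)
  have h1 : ∀ x y : k, x - y ≠ 0 → x ≠ y := fun x y h hxy => h (sub_eq_zero.2 hxy)
  have hi1 : i - 1 ≠ 0 := by
    intro h
    apply h2
    linear_combination hi - (i + 1) * h
  have hi2 : i + 1 ≠ 0 := by
    intro h
    apply h2
    linear_combination hi - (i - 1) * h
  have hset : (nthRoots 4 (a ^ 4)).toFinset = {a, -a, i * a, -(i * a)} := by
    ext x
    rw [Multiset.mem_toFinset, mem_nthRoots (by norm_num)]
    simp only [Finset.mem_insert, Finset.mem_singleton]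
    constructor
    · intro hx
      have h3 : (x - a) * ((x + a) * ((x - i * a) * (x + i * a))) = 0 := by
        linear_combination hx - (x ^ 2 - a ^ 2) * a ^ 2 * hi
      rcases mul_eq_zero.1 h3 with h | h
      · exact Or.inl (sub_eq_zero.1 h)
      rcases mul_eq_zero.1 h with h | h
      · exact Or.inr (Or.inl (eq_neg_of_add_eq_zero_left h))
      rcases mul_eq_zero.1 h with h | h
      · exact Or.inr (Or.inr (Or.inl (sub_eq_zero.1 h)))
      · exact Or.inr (Or.inr (Or.inr (eq_neg_of_add_eq_zero_left h)))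
    · rintro (rfl | rfl | rfl | rfl)
      · rfl
      · ring
      · linear_combination a ^ 4 * (i ^ 2 - 1) * hi
      · linear_combination a ^ 4 * (i ^ 2 - 1) * hi
  rw [hset]
  have e1 : a ≠ -a := by
    apply h1
    have : a - -a = 2 * a := by ring
    rw [this]
    exact mul_ne_zero h2 ha
  have e2 : a ≠ i * a := by
    apply h1
    have : a - i * a = -((i - 1) * a) := by ring
    rw [this]
    exact neg_ne_zero.2 (mul_ne_zero hi1 ha)
  have e3 : a ≠ -(i * a) := by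
    apply h1
    have : a - -(i * a) = (i + 1) * a := by ring
    rw [this]
    exact mul_ne_zero hi2 ha
  have e4 : -a ≠ i * a := by
    apply h1
    have : -a - i * a = -((i + 1) * a) := by ring
    rw [this]
    exact neg_ne_zero.2 (mul_ne_zero hi2 ha)
  have e5 : -a ≠ -(i * a) := by
    apply h1
    have : -a - -(i * a) = (i - 1) * a := by ring
    rw [this]
    exact mul_ne_zero hi1 ha
  have e6 : i * a ≠ -(i * a) := by
    apply h1
    have : i * a - -(i * a) = 2 * (i * a) := by ring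
    rw [this]
    exact mul_ne_zero h2 (mul_ne_zero hi0 ha)
  rw [Finset.card_insert_of_notMem, Finset.card_insert_of_notMem, Finset.card_insert_of_notMem,
    Finset.card_singleton]
  · simp only [Finset.mem_singleton]
    exact e6
  · simp only [Finset.mem_insert, Finset.mem_singleton, not_or]
    exact ⟨e4, e5⟩
  · simp only [Finset.mem_insert, Finset.mem_singleton, not_or]
    exact ⟨e1, e2, e3⟩

/-! ### Level three -/

/-- The polynomial whose roots are the `w` with `al(w) = l`. -/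
noncomputable def Ql (l : k) : k[X] := X ^ 4 + C (8 - 16 * l) * X ^ 3 + C 18 * X ^ 2 - C 27

lemma eval_Ql (l : k) (w : Om) :
    aeval w (Ql l) = (w - 1) * (w + 3) ^ 3 - 16 * w ^ 3 * algebraMap k Om l := by
  simp only [Ql, map_sub, map_add, map_mul, map_pow, aeval_X, aeval_C, map_ofNat]
  ring

lemma Ql_monic (l : k) : (Ql l).Monic := by
  unfold Ql
  monicity!

lemma Ql_natDegree (l : k) : (Ql l).natDegree = 4 := by
  unfold Ql
  compute_degree!

/-- The values `w` with `al(w)` in the set avoid `0, 1, -1, 3, -3`. -/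
lemma SigSet.avoid (hΓ : SigSet k Om Γ) (h2 : (2 : k) ≠ 0) (h3 : (3 : k) ≠ 0) {w : Om} {l : k}
    (hl : l ∈ Γ) (hw : 16 * w ^ 3 * algebraMap k Om l = (w - 1) * (w + 3) ^ 3) :
    w ≠ 0 ∧ w ^ 2 ≠ 1 ∧ w ^ 2 ≠ 9 := by
  have h2' : (2 : Om) ≠ 0 := by
    rw [← map_ofNat (algebraMap k Om), Ne, map_eq_zero]
    exact h2
  have h3' : (3 : Om) ≠ 0 := by
    rw [← map_ofNat (algebraMap k Om), Ne, map_eq_zero]
    exact h3
  have hl0 : algebraMap k Om l ≠ 0 := by
    rw [Ne, map_eq_zero]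
    exact hΓ.ne_zero hl
  have hl1 : algebraMap k Om l - 1 ≠ 0 := by
    rw [← map_one (algebraMap k Om), ← map_sub, Ne, map_eq_zero]
    exact sub_ne_zero.2 (hΓ.ne_one hl)
  refine ⟨?_, ?_, ?_⟩
  · rintro rfl
    have : (3 : Om) ^ 3 = 0 := by linear_combination hw
    exact pow_ne_zero 3 h3' this
  · intro h
    have h5 : (w - 1) * (w + 1) = 0 := by linear_combination h
    rcases mul_eq_zero.1 h5 with h6 | h6
    · have h7 : w = 1 := sub_eq_zero.1 h6
      rw [h7] at hw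
      have : (2 : Om) ^ 4 * algebraMap k Om l = 0 := by linear_combination hw
      exact mul_ne_zero (pow_ne_zero 4 h2') hl0 this
    · have h7 : w = -1 := eq_neg_of_add_eq_zero_left h6
      rw [h7] at hw
      have : (2 : Om) ^ 4 * (algebraMap k Om l - 1) = 0 := by linear_combination -hw
      exact mul_ne_zero (pow_ne_zero 4 h2') hl1 this
  · intro h
    have h5 : (w - 3) * (w + 3) = 0 := by linear_combination h
    rcases mul_eq_zero.1 h5 with h6 | h6
    · have h7 : w = 3 := sub_eq_zero.1 h6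
      rw [h7] at hw
      have : (2 : Om) ^ 4 * (3 ^ 3 * (algebraMap k Om l - 1)) = 0 := by linear_combination hw
      exact mul_ne_zero (pow_ne_zero 4 h2') (mul_ne_zero (pow_ne_zero 3 h3') hl1) this
    · have h7 : w = -3 := eq_neg_of_add_eq_zero_left h6
      rw [h7] at hw
      have : (2 : Om) ^ 4 * (3 ^ 3 * (algebraMap k Om l)) = 0 := by linear_combination -hw
      exact mul_ne_zero (pow_ne_zero 4 h2') (mul_ne_zero (pow_ne_zero 3 h3') hl0) this

/-- The values of level three are in `k`. -/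
lemma SigSet.mem_k [IsAlgClosed Om] (hΓ : SigSet k Om Γ) (h2 : (2 : k) ≠ 0) (h3 : (3 : k) ≠ 0)
    {i : k} (hi : i ^ 2 = -1) {w : Om} {l : k} (hl : l ∈ Γ)
    (hw : 16 * w ^ 3 * algebraMap k Om l = (w - 1) * (w + 3) ^ 3) :
    ∃ w₀ : k, algebraMap k Om w₀ = w := by
  obtain ⟨hw0, hw1, hw9⟩ := hΓ.avoid h2 h3 hl hw
  obtain ⟨μ, hμ, hμw⟩ := hΓ.cubic w hw0 hw1 hw9 ⟨l, hl, hw⟩
  obtain ⟨a, ha0, ha⟩ := hΓ.four h2 hi hl
  obtain ⟨b, hb0, hb⟩ := hΓ.four h2 hi hμ
  have h2' : (2 : Om) ≠ 0 := by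
    rw [← map_ofNat (algebraMap k Om), Ne, map_eq_zero]
    exact h2
  have hwm : w - 1 ≠ 0 := by
    intro h
    apply hw1
    linear_combination (w + 1) * h
  have hwp : w + 1 ≠ 0 := by
    intro h
    apply hw1
    linear_combination (w - 1) * h
  have hw3 : w + 3 ≠ 0 := by
    intro h
    apply hw9
    linear_combination (w - 3) * h
  have hw3' : w - 3 ≠ 0 := by
    intro h
    apply hw9
    linear_combination (w + 3) * h
  have h4 : (4 : Om) ≠ 0 := by
    have : (4 : Om) = 2 * 2 := by norm_num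
    rw [this]
    exact mul_ne_zero h2' h2'
  set a' := algebraMap k Om a with ha'
  set b' := algebraMap k Om b with hb'
  set i' := algebraMap k Om i with hi'
  have hii : i' ^ 2 = -1 := by
    rw [hi', ← map_pow, hi, map_neg, map_one]
  have haa : a' ^ 4 = algebraMap k Om l := by rw [ha', ← map_pow, ha]
  have hbb : b' ^ 4 = algebraMap k Om μ := by rw [hb', ← map_pow, hb]
  have hb0' : b' ≠ 0 := by
    rw [hb', Ne, map_eq_zero]
    exact hb0
  rw [← haa] at hw
  rw [← hbb] at hμw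
  -- `A`
  obtain ⟨A, hA⟩ : ∃ A : k, 4 * w * algebraMap k Om A = (w - 1) * (w + 3) := by
    have h5 : (4 * w * (a' * b')) ^ 4 = ((w - 1) * (w + 3)) ^ 4 := by
      linear_combination 16 * w * b' ^ 4 * hw + (w - 1) * (w + 3) ^ 3 * hμw
    set Y := 4 * w * (a' * b') with hY
    set Z := (w - 1) * (w + 3) with hZ
    have h6 : (Z - Y) * ((Z + Y) * ((Z - i' * Y) * (Z + i' * Y))) = 0 := by
      linear_combination -h5 - (Z ^ 2 - Y ^ 2) * Y ^ 2 * hii
    rcases mul_eq_zero.1 h6 with h | h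
    · refine ⟨a * b, ?_⟩
      rw [map_mul, ← ha', ← hb']
      linear_combination -h
    rcases mul_eq_zero.1 h with h | h
    · refine ⟨-(a * b), ?_⟩
      rw [map_neg, map_mul, ← ha', ← hb']
      linear_combination -h
    rcases mul_eq_zero.1 h with h | h
    · refine ⟨i * (a * b), ?_⟩
      rw [map_mul, map_mul, ← ha', ← hb', ← hi']
      linear_combination -h
    · refine ⟨-(i * (a * b)), ?_⟩
      rw [map_neg, map_mul, map_mul, ← ha', ← hb', ← hi']
      linear_combination -h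
  -- `C`
  obtain ⟨E, hE⟩ : ∃ E : k, w * (w - 1) * algebraMap k Om E = w + 3 := by
    have h5 : (w * (w - 1) * a' ^ 2) ^ 2 = ((w + 3) * b' ^ 2) ^ 2 := by
      have h6 : (16 * w * (w - 1) * (w + 3)) *
          ((w * (w - 1) * a' ^ 2) ^ 2 - ((w + 3) * b' ^ 2) ^ 2) = 0 := by
        linear_combination (w - 1) ^ 3 * (w + 3) * hw - (w - 1) * (w + 3) ^ 3 * hμw
      have h16 : (16 * w * (w - 1) * (w + 3)) ≠ 0 := by
        have : (16 : Om) = 4 * 4 := by norm_num
        rw [this]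
        exact mul_ne_zero (mul_ne_zero (mul_ne_zero (mul_ne_zero h4 h4) hw0) hwm) hw3
      exact sub_eq_zero.1 ((mul_eq_zero.1 h6).resolve_left h16)
    have h7 : (w * (w - 1) * a' ^ 2 - (w + 3) * b' ^ 2) *
        (w * (w - 1) * a' ^ 2 + (w + 3) * b' ^ 2) = 0 := by
      linear_combination h5
    rcases mul_eq_zero.1 h7 with h | h
    · refine ⟨a ^ 2 / b ^ 2, ?_⟩
      rw [map_div₀, map_pow, map_pow, ← ha', ← hb', mul_div_assoc',
        div_eq_iff (pow_ne_zero 2 hb0')]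
      linear_combination h
    · refine ⟨-(a ^ 2 / b ^ 2), ?_⟩
      rw [map_neg, map_div₀, map_pow, map_pow, ← ha', ← hb', mul_neg, mul_div_assoc', neg_eq_iff_eq_neg,
        div_eq_iff (pow_ne_zero 2 hb0')]
      linear_combination h
  have hE0 : E ≠ 0 := by
    rintro rfl
    rw [map_zero, mul_zero] at hE
    exact hw3 hE.symm
  have hE0' : algebraMap k Om E ≠ 0 := by
    rw [Ne, map_eq_zero]
    exact hE0
  -- `(w - 1) ^ 2 = 4 A / E`
  have h8 : (w - 1) ^ 2 * algebraMap k Om E = 4 * algebraMap k Om A := by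
    have h9 : w * (w + 3) * ((w - 1) ^ 2 * algebraMap k Om E - 4 * algebraMap k Om A) = 0 := by
      linear_combination (w + 3) * (w - 1) * hE - (w + 3) * hA
    exact sub_eq_zero.1 ((mul_eq_zero.1 h9).resolve_left (mul_ne_zero hw0 hw3))
  have hA1 : A - 1 ≠ 0 := by
    intro h
    have h10 : algebraMap k Om A = 1 := by
      rw [sub_eq_zero.1 h, map_one]
    rw [h10] at hA
    have : (w - 3) * (w + 1) = 0 := by linear_combination -hA
    exact mul_ne_zero hw3' hwp this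
  have hA1' : algebraMap k Om (A - 1) ≠ 0 := by
    rw [Ne, map_eq_zero]
    exact hA1
  refine ⟨(A / E - 1) / (A - 1), ?_⟩
  rw [map_div₀, div_eq_iff hA1', map_sub, map_sub, map_one, map_div₀]
  have h11 : algebraMap k Om A / algebraMap k Om E = (w - 1) ^ 2 / 4 := by
    rw [div_eq_div_iff hE0' h4]
    linear_combination -h8
  rw [h11, div_sub_one h4, div_eq_iff h4]
  linear_combination -hA

/-- The finset of the values of level three over `l`. -/
lemma SigSet.exists_W3 [IsAlgClosed Om] (hΓ : SigSet k Om Γ) (h2 : (2 : k) ≠ 0)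
    (h3 : (3 : k) ≠ 0) {i : k} (hi : i ^ 2 = -1) {l : k} (hl : l ∈ Γ) :
    ∃ T : Finset k, T.card = 4 ∧ ∀ w : k, w ∈ T ↔ 16 * w ^ 3 * l = (w - 1) * (w + 3) ^ 3 := by
  classical
  have h3' : (3 : Om) ≠ 0 := by
    rw [← map_ofNat (algebraMap k Om), Ne, map_eq_zero]
    exact h3
  have h2' : (2 : Om) ≠ 0 := by
    rw [← map_ofNat (algebraMap k Om), Ne, map_eq_zero]
    exact h2
  have h4 : (4 : Om) ≠ 0 := by
    have : (4 : Om) = 2 * 2 := by norm_num
    rw [this]
    exact mul_ne_zero h2' h2'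
  have hl0 : algebraMap k Om l ≠ 0 := by
    rw [Ne, map_eq_zero]
    exact hΓ.ne_zero hl
  have hl1 : algebraMap k Om l - 1 ≠ 0 := by
    rw [← map_one (algebraMap k Om), ← map_sub, Ne, map_eq_zero]
    exact sub_ne_zero.2 (hΓ.ne_one hl)
  set q : Om[X] := (Ql l).map (algebraMap k Om) with hq
  have hq0 : q ≠ 0 := ((Ql_monic l).map _).ne_zero
  have hqd : q.natDegree = 4 := by rw [hq, (Ql_monic l).natDegree_map, Ql_natDegree]
  have heval : ∀ w : Om, q.IsRoot w ↔ 16 * w ^ 3 * algebraMap k Om l = (w - 1) * (w + 3) ^ 3 := by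
    intro w
    rw [IsRoot.def, hq, eval_map_algebraMap, eval_Ql, sub_eq_zero]
    exact eq_comm
  have hder : ∀ w : Om, q.IsRoot w → ¬ (derivative q).IsRoot w := by
    intro w hw hw'
    obtain ⟨hw0, hw1, hw9⟩ := hΓ.avoid h2 h3 hl ((heval w).1 hw)
    have e1 := (heval w).1 hw
    have e2 : 4 * w ^ 3 + 3 * (8 - 16 * algebraMap k Om l) * w ^ 2 + 36 * w = 0 := by
      rw [IsRoot.def, hq, derivative_map, eval_map_algebraMap] at hw'
      simp only [Ql, derivative_sub, derivative_add, derivative_mul, derivative_X_pow,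
        derivative_C, zero_mul, zero_add, sub_zero, map_add, map_mul, map_pow, aeval_X, aeval_C,
        map_sub, map_ofNat, map_natCast] at hw'
      norm_num at hw'
      linear_combination hw'
    have e3 : w * (w + 3) ^ 2 - 12 * algebraMap k Om l * w ^ 2 = 0 := by
      have : 4 * (w * (w + 3) ^ 2 - 12 * algebraMap k Om l * w ^ 2) = 0 := by
        linear_combination e2
      exact (mul_eq_zero.1 this).resolve_left h4
    have e4 : (4 * (algebraMap k Om l) * w ^ 2) * (w - 3) ^ 2 = 0 := by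
      linear_combination w * e1 + (w - 1) * (w + 3) * e3
    have e5 : w - 3 = 0 := by
      have h6 := (mul_eq_zero.1 e4).resolve_left
        (mul_ne_zero (mul_ne_zero h4 hl0) (pow_ne_zero 2 hw0))
      exact pow_eq_zero_iff (two_ne_zero) |>.1 h6
    apply hw9
    linear_combination (w + 3) * e5
  have hnd : q.roots.Nodup := by
    rw [Multiset.nodup_iff_count_le_one]
    intro w
    rw [count_roots]
    by_contra hcon
    push Not at hcon
    rw [one_lt_rootMultiplicity_iff_isRoot hq0] at hcon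
    exact hder w hcon.1 hcon.2
  have hcard : q.roots.card = 4 := by
    rw [← hqd]
    exact (splits_iff_card_roots.1 (IsAlgClosed.splits q))
  refine ⟨(Ql l).roots.toFinset, ?_, ?_⟩
  · have himg : (Ql l).roots.toFinset.image (algebraMap k Om) = q.roots.toFinset := by
      ext w
      rw [Finset.mem_image, Multiset.mem_toFinset, mem_roots hq0]
      constructor
      · rintro ⟨w₀, hw₀, rfl⟩
        rw [Multiset.mem_toFinset, mem_roots (Ql_monic l).ne_zero] at hw₀
        exact hw₀.map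
      · intro hw
        obtain ⟨w₀, rfl⟩ := hΓ.mem_k h2 h3 hi hl ((heval w).1 hw)
        refine ⟨w₀, ?_, rfl⟩
        rw [Multiset.mem_toFinset, mem_roots (Ql_monic l).ne_zero]
        exact (isRoot_map_iff (algebraMap k Om).injective).1 hw
    rw [← Finset.card_image_of_injective _ (algebraMap k Om).injective, himg,
      Multiset.toFinset_card_of_nodup hnd, hcard]
  · intro w
    rw [Multiset.mem_toFinset, mem_roots (Ql_monic l).ne_zero]
    have h6 := eval_Ql (Om := k) l w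
    rw [coe_aeval_eq_eval] at h6
    rw [IsRoot.def, h6, sub_eq_zero]
    exact eq_comm

/-- The cube roots belonging to a value of level three. -/
lemma SigSet.cube [IsAlgClosed Om] (hΓ : SigSet k Om Γ) (h2 : (2 : k) ≠ 0) (h3 : (3 : k) ≠ 0)
    {i : k} (hi : i ^ 2 = -1) {w l : k} (hl : l ∈ Γ)
    (hw : 16 * w ^ 3 * l = (w - 1) * (w + 3) ^ 3) {c : Om}
    (hc : c ^ 3 = algebraMap k Om (w * (9 - w ^ 2))) :
    c + algebraMap k Om w ≠ 0 ∧ ∃ w' : k, (∃ μ ∈ Γ, 16 * w' ^ 3 * μ = (w' - 1) * (w' + 3) ^ 3) ∧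
      w' ≠ 0 ∧ algebraMap k Om w' * (c + algebraMap k Om w) ^ 2 = 9 * algebraMap k Om w := by
  have hwO : 16 * (algebraMap k Om w) ^ 3 * algebraMap k Om l =
      (algebraMap k Om w - 1) * (algebraMap k Om w + 3) ^ 3 := by
    have := congrArg (algebraMap k Om) hw
    simpa only [map_mul, map_pow, map_sub, map_add, map_one, map_ofNat] using this
  obtain ⟨hw0, hw1, hw9⟩ := hΓ.avoid h2 h3 hl hwO
  obtain ⟨μ, hμ, hμw⟩ := hΓ.cubic _ hw0 hw1 hw9 ⟨l, hl, hwO⟩
  set W := algebraMap k Om w with hW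
  have hc' : c ^ 3 = W * (9 - W ^ 2) := by
    rw [hc]
    simp only [map_mul, map_pow, map_sub, map_ofNat, hW]
  have h3' : (3 : Om) ≠ 0 := by
    rw [← map_ofNat (algebraMap k Om), Ne, map_eq_zero]
    exact h3
  have h9 : (9 : Om) ≠ 0 := by
    have : (9 : Om) = 3 * 3 := by norm_num
    rw [this]
    exact mul_ne_zero h3' h3'
  have hcW : c + W ≠ 0 := by
    intro h
    have : 9 * W = 0 := by linear_combination (c ^ 2 - c * W + W ^ 2) * h - hc'
    exact mul_ne_zero h9 hw0 this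
  have hcW2 : (c + W) ^ 2 ≠ 0 := pow_ne_zero 2 hcW
  have hw' : 16 * (9 * W / (c + W) ^ 2) ^ 3 * algebraMap k Om μ =
      (9 * W / (c + W) ^ 2 - 1) * (9 * W / (c + W) ^ 2 + 3) ^ 3 := by
    have e : (9 * W / (c + W) ^ 2) * (c + W) ^ 2 = 9 * W := div_mul_cancel₀ _ hcW2
    set V := 9 * W / (c + W) ^ 2 with hV
    have h5 : ((c + W) ^ 2) ^ 4 * (16 * V ^ 3 * algebraMap k Om μ - (V - 1) * (V + 3) ^ 3) = 0 := by
      have h6 : ((c + W) ^ 2) ^ 4 * (16 * V ^ 3 * algebraMap k Om μ - (V - 1) * (V + 3) ^ 3) =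
          16 * (V * (c + W) ^ 2) ^ 3 * (c + W) ^ 2 * algebraMap k Om μ -
          (V * (c + W) ^ 2 - (c + W) ^ 2) * (V * (c + W) ^ 2 + 3 * (c + W) ^ 2) ^ 3 := by
        ring
      rw [h6, e]
      linear_combination 729 * W ^ 2 * (c + W) ^ 2 * hμw +
        27 * (c ^ 5 + 8 * c ^ 4 * W + 28 * c ^ 3 * W ^ 2 + 55 * c ^ 2 * W ^ 3 + 9 * c ^ 2 * W +
          62 * c * W ^ 4 + 18 * c * W ^ 2 + 28 * W ^ 5 + 36 * W ^ 3) * hc'
    exact sub_eq_zero.1 ((mul_eq_zero.1 h5).resolve_left (pow_ne_zero 4 hcW2))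
  obtain ⟨w', hw'k⟩ := hΓ.mem_k h2 h3 hi hμ hw'
  refine ⟨hcW, w', ⟨μ, hμ, ?_⟩, ?_, ?_⟩
  · apply am_inj (Om := Om)
    simp only [map_mul, map_pow, map_sub, map_add, map_one, map_ofNat]
    rw [hw'k]
    exact hw'
  · rintro rfl
    rw [map_zero] at hw'k
    exact div_ne_zero (mul_ne_zero h9 hw0) hcW2 hw'k.symm
  · rw [hw'k, div_mul_cancel₀ _ hcW2]

/-- The cube roots are in `k`. -/
lemma SigSet.exists_cube [IsAlgClosed Om] (hΓ : SigSet k Om Γ) (h2 : (2 : k) ≠ 0)
    (h3 : (3 : k) ≠ 0) {i : k} (hi : i ^ 2 = -1) {ω : k} (hω : ω ^ 2 + ω + 1 = 0) {w l : k}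
    (hl : l ∈ Γ) (hw : 16 * w ^ 3 * l = (w - 1) * (w + 3) ^ 3) :
    ∃ c : k, c ^ 3 = w * (9 - w ^ 2) := by
  obtain ⟨c, hc⟩ : ∃ c : Om, c ^ 3 = algebraMap k Om (w * (9 - w ^ 2)) :=
    IsAlgClosed.exists_pow_nat_eq _ (by norm_num)
  set o := algebraMap k Om ω with ho
  have hoo : o ^ 2 + o + 1 = 0 := by
    rw [ho, ← map_pow, ← map_add, ← map_one (algebraMap k Om), ← map_add, hω, map_zero]
  have ho3 : o ^ 3 = 1 := by linear_combination (o - 1) * hoo
  have hwO : 16 * (algebraMap k Om w) ^ 3 * algebraMap k Om l =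
      (algebraMap k Om w - 1) * (algebraMap k Om w + 3) ^ 3 := by
    have := congrArg (algebraMap k Om) hw
    simpa only [map_mul, map_pow, map_sub, map_add, map_one, map_ofNat] using this
  obtain ⟨hw0, -, -⟩ := hΓ.avoid h2 h3 hl hwO
  have hw0k : w ≠ 0 := by
    rintro rfl
    exact hw0 (map_zero _)
  obtain ⟨-, v0, -, hv0, e0⟩ := hΓ.cube h2 h3 hi hl hw hc
  obtain ⟨-, v1, -, hv1, e1⟩ := hΓ.cube h2 h3 hi hl hw (c := o * c)
    (by rw [mul_pow, ho3, one_mul, hc])
  obtain ⟨-, v2, -, hv2, e2⟩ := hΓ.cube h2 h3 hi hl hw (c := o ^ 2 * c)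
    (by rw [mul_pow, ← pow_mul, mul_comm 2 3, pow_mul, ho3, one_pow, one_mul, hc])
  set W := algebraMap k Om w with hW
  have key : ∀ (v : k) (x : Om), v ≠ 0 → algebraMap k Om v * x = 9 * W →
      x = algebraMap k Om (9 * w / v) := by
    intro v x hv h
    have hv' : algebraMap k Om v ≠ 0 := by
      rw [Ne, map_eq_zero]
      exact hv
    rw [map_div₀, map_mul, map_ofNat, ← hW, ← h, mul_div_cancel_left₀ _ hv']
  have f0 := key v0 _ hv0 e0
  have f1 := key v1 _ hv1 e1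
  have f2 := key v2 _ hv2 e2
  have h6 : (6 : k) * w ≠ 0 := by
    have : (6 : k) = 2 * 3 := by norm_num
    rw [this]
    exact mul_ne_zero (mul_ne_zero h2 h3) hw0k
  have h6' : algebraMap k Om (6 * w) ≠ 0 := by
    rw [Ne, map_eq_zero]
    exact h6
  have h7 : algebraMap k Om (6 * w) * c =
      algebraMap k Om (9 * w / v0 + ω ^ 2 * (9 * w / v1) + ω * (9 * w / v2)) := by
    rw [map_add, map_add, map_mul (algebraMap k Om) 6 w, map_mul (algebraMap k Om) (ω ^ 2),
      map_mul (algebraMap k Om) ω, map_pow, ← f0, ← f1, ← f2, map_ofNat, ← ho, ← hW]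
    linear_combination (-(c ^ 2 + W ^ 2)) * hoo - (c ^ 2 * (o + o ^ 2) + 4 * c * W) * ho3
  refine ⟨(9 * w / v0 + ω ^ 2 * (9 * w / v1) + ω * (9 * w / v2)) / (6 * w), ?_⟩
  apply am_inj (Om := Om)
  rw [map_pow, map_div₀, ← h7, mul_div_cancel_left₀ _ h6', hc]

lemma SigSet.close [IsAlgClosed Om] (hΓ : SigSet k Om Γ) (h2 : (2 : k) ≠ 0) {i : k}
    (hi : i ^ 2 = -1) {a : k} (ha : a ^ 4 ∈ Γ) :
    ∃ β : k, β ^ 4 ∈ Γ ∧ (-β) ^ 4 ∈ Γ ∧ 2 * a * β ^ 2 = a ^ 2 + 1 := by
  have ha0 : a ≠ 0 := by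
    rintro rfl
    exact hΓ.ne_zero ha (by ring)
  obtain ⟨μ, hμ, h⟩ := hΓ.mu (u := a ^ 2) ha (by ring)
  obtain ⟨b, hb0, hb⟩ := hΓ.four h2 hi hμ
  have h1 : (a ^ 2 + 1 - 2 * a * b ^ 2) * (a ^ 2 + 1 + 2 * a * b ^ 2) = 0 := by
    linear_combination -h - 4 * a ^ 2 * hb
  rcases mul_eq_zero.1 h1 with h3 | h3
  · refine ⟨b, by rw [hb]; exact hμ, ?_, by linear_combination -h3⟩
    have : (-b) ^ 4 = μ := by rw [← hb]; ring
    rw [this]
    exact hμ
  · have h4 : (i * b) ^ 4 = μ := by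
      rw [← hb]
      linear_combination b ^ 4 * (i ^ 2 - 1) * hi
    refine ⟨i * b, by rw [h4]; exact hμ, ?_, by linear_combination 2 * a * b ^ 2 * hi - h3⟩
    have : (-(i * b)) ^ 4 = μ := by rw [← h4]; ring
    rw [this]
    exact hμ

/-- **The two sets.** -/
theorem SigSet.exists_sets [IsAlgClosed Om] (hΓ : SigSet k Om Γ) (h2 : (2 : k) ≠ 0)
    (h3 : (3 : k) ≠ 0) {i : k} (hi : i ^ 2 = -1) {ω : k} (hω : ω ^ 2 + ω + 1 = 0) :
    ∃ S W3 : Finset k, Pool.Agent.FF.SSet S ∧ S.card = 4 * Γ.card ∧ W3.card = 4 * Γ.card ∧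
      (∀ a, a ∈ S ↔ a ^ 4 ∈ Γ) ∧
      (∀ w, w ∈ W3 ↔ ∃ l ∈ Γ, 16 * w ^ 3 * l = (w - 1) * (w + 3) ^ 3) ∧
      (∀ w ∈ W3, w ≠ 0 ∧ w ^ 2 ≠ 1 ∧ w ^ 2 ≠ 9) ∧
      (∀ w ∈ W3, ∃ A : Finset k, A ⊆ S ∧ A.card = 4 ∧
        ∀ a ∈ A, 16 * w ^ 3 * a ^ 4 = (w - 1) * (w + 3) ^ 3) ∧
      (∀ w ∈ W3, ∃ C : Finset k, C.card = 3 ∧ ∀ c ∈ C, c ^ 3 = w * (9 - w ^ 2) ∧ c + w ≠ 0 ∧
        9 * w / (c + w) ^ 2 ∈ W3) := by
  classical
  have h16 : (16 : k) ≠ 0 := by
    have : (16 : k) = 2 * 2 * 2 * 2 := by norm_num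
    rw [this]
    exact mul_ne_zero (mul_ne_zero (mul_ne_zero h2 h2) h2) h2
  choose! T hT1 hT2 using fun (l : k) (hl : l ∈ Γ) => hΓ.exists_W3 h2 h3 hi hl
  set S : Finset k := Γ.biUnion fun l => (nthRoots 4 l).toFinset with hS
  set W3 : Finset k := Γ.biUnion T with hW3
  have hmS : ∀ a, a ∈ S ↔ a ^ 4 ∈ Γ := by
    intro a
    rw [hS, Finset.mem_biUnion]
    constructor
    · rintro ⟨l, hl, h⟩
      rw [Multiset.mem_toFinset, mem_nthRoots (by norm_num)] at h
      rw [h]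
      exact hl
    · intro h
      exact ⟨_, h, by rw [Multiset.mem_toFinset, mem_nthRoots (by norm_num)]⟩
  have hmW : ∀ w, w ∈ W3 ↔ ∃ l ∈ Γ, 16 * w ^ 3 * l = (w - 1) * (w + 3) ^ 3 := by
    intro w
    rw [hW3, Finset.mem_biUnion]
    constructor
    · rintro ⟨l, hl, h⟩
      exact ⟨l, hl, (hT2 l hl w).1 h⟩
    · rintro ⟨l, hl, h⟩
      exact ⟨l, hl, (hT2 l hl w).2 h⟩
  have hne : ∀ w ∈ W3, w ≠ 0 ∧ w ^ 2 ≠ 1 ∧ w ^ 2 ≠ 9 := by
    intro w hw
    obtain ⟨l, hl, h⟩ := (hmW w).1 hw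
    have hwO : 16 * (algebraMap k Om w) ^ 3 * algebraMap k Om l =
        (algebraMap k Om w - 1) * (algebraMap k Om w + 3) ^ 3 := by
      have := congrArg (algebraMap k Om) h
      simpa only [map_mul, map_pow, map_sub, map_add, map_one, map_ofNat] using this
    obtain ⟨a0, a1, a9⟩ := hΓ.avoid h2 h3 hl hwO
    refine ⟨?_, ?_, ?_⟩
    · rintro rfl
      exact a0 (map_zero _)
    · intro h5
      apply a1
      rw [← map_pow, h5, map_one]
    · intro h5
      apply a9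
      rw [← map_pow, h5, map_ofNat]
  refine ⟨S, W3, ⟨?_, ?_⟩, ?_, ?_, hmS, hmW, hne, ?_, ?_⟩
  · intro a ha
    have h := (hmS a).1 ha
    refine ⟨?_, hΓ.ne_one h⟩
    rintro rfl
    exact hΓ.ne_zero h (by ring)
  · intro a ha
    obtain ⟨β, h5, h6, h7⟩ := hΓ.close h2 hi ((hmS a).1 ha)
    exact ⟨β, (hmS β).2 h5, (hmS (-β)).2 h6, h7⟩
  · rw [hS, Finset.card_biUnion]
    · rw [Finset.sum_congr rfl (g := fun _ => 4), Finset.sum_const, smul_eq_mul, mul_comm]
      intro l hl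
      obtain ⟨a, ha0, ha⟩ := hΓ.four h2 hi hl
      rw [← ha]
      exact card_four h2 hi ha0
    · intro l hl l' hl' hll
      change Disjoint _ _
      rw [Finset.disjoint_left]
      intro a ha ha'
      rw [Multiset.mem_toFinset, mem_nthRoots (by norm_num)] at ha ha'
      exact hll (ha.symm.trans ha')
  · rw [hW3, Finset.card_biUnion]
    · rw [Finset.sum_congr rfl (g := fun _ => 4), Finset.sum_const, smul_eq_mul, mul_comm]
      intro l hl
      exact hT1 l hl
    · intro l hl l' hl' hll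
      change Disjoint _ _
      rw [Finset.disjoint_left]
      intro w hw hw'
      have e := (hT2 l hl w).1 hw
      have e' := (hT2 l' hl' w).1 hw'
      obtain ⟨w0, -, -⟩ := hne w ((hmW w).2 ⟨l, hl, e⟩)
      apply hll
      have h5 : (16 * w ^ 3) * l = (16 * w ^ 3) * l' := by rw [e, e']
      exact mul_left_cancel₀ (mul_ne_zero h16 (pow_ne_zero 3 w0)) h5
  · intro w hw
    obtain ⟨l, hl, h⟩ := (hmW w).1 hw
    obtain ⟨a, ha0, ha⟩ := hΓ.four h2 hi hl
    refine ⟨(nthRoots 4 l).toFinset, ?_, ?_, ?_⟩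
    · intro b hb
      rw [hS, Finset.mem_biUnion]
      exact ⟨l, hl, hb⟩
    · rw [← ha]
      exact card_four h2 hi ha0
    · intro b hb
      rw [Multiset.mem_toFinset, mem_nthRoots (by norm_num)] at hb
      rw [hb]
      exact h
  · intro w hw
    obtain ⟨l, hl, h⟩ := (hmW w).1 hw
    obtain ⟨w0, w1, w9⟩ := hne w hw
    obtain ⟨c, hc⟩ := hΓ.exists_cube h2 h3 hi hω hl h
    have hc0 : c ≠ 0 := by
      rintro rfl
      have h5 : w * (9 - w ^ 2) = 0 := by rw [← hc]; ring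
      rcases mul_eq_zero.1 h5 with h6 | h6
      · exact w0 h6
      · exact w9 (sub_eq_zero.1 h6).symm
    have ho3 : ω ^ 3 = 1 := by linear_combination (ω - 1) * hω
    have ho1 : ω ≠ 1 := by
      rintro rfl
      apply h3
      linear_combination hω
    have ho0 : ω ≠ 0 := by
      rintro rfl
      apply one_ne_zero (α := k)
      linear_combination hω
    refine ⟨{c, ω * c, ω ^ 2 * c}, ?_, ?_⟩
    · rw [Finset.card_insert_of_notMem, Finset.card_insert_of_notMem, Finset.card_singleton]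
      · rw [Finset.mem_singleton]
        intro h5
        apply ho1
        have h6 : (ω * c) * (ω - 1) = 0 := by linear_combination -h5
        exact sub_eq_zero.1 ((mul_eq_zero.1 h6).resolve_left (mul_ne_zero ho0 hc0))
      · rw [Finset.mem_insert, Finset.mem_singleton, not_or]
        constructor
        · intro h5
          apply ho1
          have h6 : c * (ω - 1) = 0 := by linear_combination -h5
          exact sub_eq_zero.1 ((mul_eq_zero.1 h6).resolve_left hc0)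
        · intro h5
          apply ho1
          have h6 : c * (ω - 1) = 0 := by
            linear_combination c * ho3 + ω * h5
          exact sub_eq_zero.1 ((mul_eq_zero.1 h6).resolve_left hc0)
    · intro x hx
      have hx3 : x ^ 3 = w * (9 - w ^ 2) := by
        simp only [Finset.mem_insert, Finset.mem_singleton] at hx
        rcases hx with rfl | rfl | rfl
        · exact hc
        · rw [mul_pow, ho3, one_mul, hc]
        · rw [mul_pow, ← pow_mul, mul_comm 2 3, pow_mul, ho3, one_pow, one_mul, hc]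
      obtain ⟨hcw, w', ⟨μ, hμ, h7⟩, hw'0, h8⟩ := hΓ.cube h2 h3 hi hl h
        (c := algebraMap k Om x) (by rw [← map_pow, hx3])
      have hxw : x + w ≠ 0 := by
        intro h9
        apply hcw
        rw [← map_add, h9, map_zero]
      refine ⟨hx3, hxw, ?_⟩
      rw [hmW]
      have h10 : 9 * w / (x + w) ^ 2 = w' := by
        rw [div_eq_iff (pow_ne_zero 2 hxw)]
        apply am_inj (Om := Om)
        rw [map_mul, map_mul, map_pow, map_add, map_ofNat]
        exact h8.symm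
      rw [h10]
      exact ⟨μ, hμ, h7⟩

end

end Pool.Agent.FS
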