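import Pool.Agent.FS.SetA
import Pool.Agent.FS.Cub
import Pool.Agent.FO.DefsQ

/-!
# The sets `S` and `W3` over the field of `p ^ 2` elements

The two properties of the supersingular values which are not proved here (they lie in `k`, and the
Landen transformation) are hypotheses of `exists_sw_of`.
-/

namespace Pool.Agent.FS

open Polynomial

/-- The elements of `Om` fixed by the power `|k|` are in `k`. -/
lemma mem_range_of_pow {k Om : Type*} [Field k] [Finite k] [Field Om] [Algebra k Om] {t : Om}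
    (ht : t ^ Nat.card k = t) : ∃ a : k, algebraMap k Om a = t := by
  classical
  haveI := Fintype.ofFinite k
  have hq : 1 < Fintype.card k := Fintype.one_lt_card
  rw [Nat.card_eq_fintype_card] at ht
  have hne : (X ^ Fintype.card k - X : Om[X]) ≠ 0 := FiniteField.X_pow_card_sub_X_ne_zero _ hq
  by_contra hcon
  push Not at hcon
  have hsub : insert t (Finset.univ.map ⟨algebraMap k Om, (algebraMap k Om).injective⟩) ⊆
      (X ^ Fintype.card k - X : Om[X]).roots.toFinset := by
    intro x hx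
    rw [Multiset.mem_toFinset, mem_roots hne]
    rw [Finset.mem_insert, Finset.mem_map] at hx
    rcases hx with rfl | ⟨a, -, rfl⟩
    · rw [IsRoot, eval_sub, eval_pow, eval_X, ht, sub_self]
    · rw [IsRoot, eval_sub, eval_pow, eval_X, Function.Embedding.coeFn_mk, ← map_pow,
        FiniteField.pow_card, sub_self]
  have h1 := Finset.card_le_card hsub
  rw [Finset.card_insert_of_notMem, Finset.card_map, Finset.card_univ] at h1
  · have h2 := Multiset.toFinset_card_le (X ^ Fintype.card k - X : Om[X]).roots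
    have h3 := card_roots' (X ^ Fintype.card k - X : Om[X])
    have h4 : (X ^ Fintype.card k - X : Om[X]).natDegree = Fintype.card k :=
      FiniteField.X_pow_card_sub_X_natDegree_eq _ hq
    omega
  · rw [Finset.mem_map]
    rintro ⟨a, -, ha⟩
    exact hcon a ha

lemma exists_root_minus_one {k : Type*} [Field k] [Finite k] (h4 : Nat.card k % 4 = 1) :
    ∃ i : k, i ^ 2 = -1 := by
  haveI := Fintype.ofFinite k
  rw [Nat.card_eq_fintype_card] at h4
  have h := (FiniteField.isSquare_neg_one_iff (F := k)).2 (by omega)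
  obtain ⟨i, hi⟩ := h
  exact ⟨i, by rw [hi]; ring⟩

lemma exists_root_three {k : Type*} [Field k] [Finite k] (h3 : Nat.card k % 3 = 1) :
    ∃ ω : k, ω ^ 2 + ω + 1 = 0 := by
  classical
  haveI := Fintype.ofFinite k
  rw [Nat.card_eq_fintype_card] at h3
  have hd : 3 ∣ Fintype.card kˣ := by
    rw [Fintype.card_units]
    omega
  haveI : Fact (Nat.Prime 3) := ⟨Nat.prime_three⟩
  obtain ⟨u, hu⟩ := exists_prime_orderOf_dvd_card 3 hd
  have h5 : u ^ 3 = 1 := by rw [← hu, pow_orderOf_eq_one]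
  have h6 : u ≠ 1 := by
    rintro rfl
    rw [orderOf_one] at hu
    omega
  refine ⟨u, ?_⟩
  have h7 : ((u : k) - 1) * ((u : k) ^ 2 + u + 1) = 0 := by
    have h8 : (u : k) ^ 3 = 1 := by
      rw [← Units.val_pow_eq_pow_val, h5, Units.val_one]
    linear_combination h8
  refine (mul_eq_zero.1 h7).resolve_left fun h8 => h6 ?_
  exact Units.ext (by rw [Units.val_one]; exact sub_eq_zero.1 h8)

section

variable {k Om : Type*} [Field k] [Finite k] [Field Om] [Algebra k Om]

/-- The supersingular values in `k`. -/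
lemma exists_sigSet [IsAlgClosed Om] {p : ℕ} [hpf : Fact p.Prime] (hp : 5 ≤ p)
    (hk : Nat.card k = p ^ 2) (hF : ∀ t ∈ SIG Om p, t ^ (p ^ 2) = t)
    (hL : ∀ v : Om, v ≠ 0 → v ^ 2 ≠ 1 → v ^ 2 ∈ SIG Om p → (v + 1) ^ 2 / (4 * v) ∈ SIG Om p) :
    ∃ Γ : Finset k, SigSet k Om Γ ∧ 2 * Γ.card = p - 1 := by
  classical
  haveI := Fintype.ofFinite k
  haveI : CharP k p := charP_of_card_eq_prime_pow (f := 2) (by rw [← Nat.card_eq_fintype_card, hk])
  haveI : CharP Om p := charP_of_injective_algebraMap (algebraMap k Om).injective p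
  have hodd : p % 2 = 1 := by
    rcases hpf.out.eq_two_or_odd with h | h
    · omega
    · exact h
  have h2 : (2 : Om) ≠ 0 := by
    intro h
    have h' : ((2 : ℕ) : Om) = 0 := by exact_mod_cast h
    rw [CharP.cast_eq_zero_iff Om p] at h'
    have := Nat.le_of_dvd (by norm_num) h'
    omega
  have h4 : (4 : Om) ≠ 0 := by
    have : (4 : Om) = 2 * 2 := by norm_num
    rw [this]
    exact mul_ne_zero h2 h2
  have h16 : (16 : Om) ≠ 0 := by
    have : (16 : Om) = 4 * 4 := by norm_num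
    rw [this]
    exact mul_ne_zero h4 h4
  set Γ : Finset k := Finset.univ.filter fun a => algebraMap k Om a ∈ SIG Om p with hΓ
  have hm : ∀ a : k, a ∈ Γ ↔ algebraMap k Om a ∈ SIG Om p := by
    intro a
    rw [hΓ, Finset.mem_filter]
    simp
  have hs : ∀ t ∈ SIG Om p, ∃ a ∈ Γ, algebraMap k Om a = t := by
    intro t ht
    obtain ⟨a, ha⟩ := mem_range_of_pow (k := k) (t := t) (by rw [hk]; exact hF t ht)
    exact ⟨a, by rw [hm, ha]; exact ht, ha⟩
  refine ⟨Γ, ⟨?_, ?_, ?_, ?_⟩, ?_⟩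
  · rw [hm, map_zero]
    intro h
    exact SIG_ne_zero p h rfl
  · rw [hm, map_one]
    intro h
    exact SIG_ne_one p (by omega) h rfl
  · rintro v hv0 hv1 ⟨l, hl, h⟩
    obtain ⟨μ, hμ, h5⟩ := hs _ (hL v hv0 hv1 (by rw [h]; exact (hm l).1 hl))
    refine ⟨μ, hμ, ?_⟩
    rw [h5]
    field_simp
  · rintro W hW0 - - ⟨l, hl, h⟩
    have h5 : (HH Om p).eval ((W - 1) * (W + 3) ^ 3 / (16 * W ^ 3)) = 0 := by
      rw [← mem_SIG, ← h, mul_div_cancel_left₀ _ (mul_ne_zero h16 (pow_ne_zero 3 hW0))]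
      exact (hm l).1 hl
    have h6 := cub_step p hp hW0 h5
    rw [← mem_SIG] at h6
    obtain ⟨μ, hμ, h7⟩ := hs _ h6
    refine ⟨μ, hμ, ?_⟩
    rw [h7]
    field_simp
  · have h5 : (Γ.map ⟨algebraMap k Om, (algebraMap k Om).injective⟩) = SIG Om p := by
      ext t
      rw [Finset.mem_map]
      constructor
      · rintro ⟨a, ha, rfl⟩
        exact (hm a).1 ha
      · intro ht
        obtain ⟨a, ha, h⟩ := hs t ht
        exact ⟨a, ha, h⟩
    have h6 := SIG_card (F := Om) p (by omega)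
    rw [← h5, Finset.card_map] at h6
    rw [h6]
    omega

/-- **The two sets `S` and `W3`**, given the two properties of the supersingular values. -/
theorem exists_sw_of [IsAlgClosed Om] {p : ℕ} [hpf : Fact p.Prime] (hp : 5 ≤ p)
    (hk : Nat.card k = p ^ 2) (hF : ∀ t ∈ SIG Om p, t ^ (p ^ 2) = t)
    (hL : ∀ v : Om, v ≠ 0 → v ^ 2 ≠ 1 → v ^ 2 ∈ SIG Om p → (v + 1) ^ 2 / (4 * v) ∈ SIG Om p) :
    ∃ S W3 : Finset k, Pool.Agent.FF.SSet S ∧ Pool.Agent.FF.WSet S W3 ∧ S.card = 2 * (p - 1) ∧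
      W3.card = 2 * (p - 1) := by
  haveI := Fintype.ofFinite k
  haveI : CharP k p := charP_of_card_eq_prime_pow (f := 2) (by rw [← Nat.card_eq_fintype_card, hk])
  have hn : ∀ n : ℕ, 0 < n → n < p → (n : k) ≠ 0 := by
    intro n h0 h1 h
    rw [CharP.cast_eq_zero_iff k p] at h
    have := Nat.le_of_dvd h0 h
    omega
  have h2 : (2 : k) ≠ 0 := by exact_mod_cast hn 2 (by norm_num) (by omega)
  have h3 : (3 : k) ≠ 0 := by exact_mod_cast hn 3 (by norm_num) (by omega)
  have hodd : p % 2 = 1 := by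
    rcases hpf.out.eq_two_or_odd with h | h
    · omega
    · exact h
  have hp3 : p % 3 ≠ 0 := by
    intro h
    have := (Nat.prime_dvd_prime_iff_eq Nat.prime_three hpf.out).1 (Nat.dvd_of_mod_eq_zero h)
    omega
  obtain ⟨i, hi⟩ := exists_root_minus_one (k := k) (by
    rw [hk, Nat.pow_mod]
    have : p % 4 = 1 ∨ p % 4 = 3 := by omega
    rcases this with h | h <;> rw [h])
  obtain ⟨ω, hω⟩ := exists_root_three (k := k) (by
    rw [hk, Nat.pow_mod]
    have : p % 3 = 1 ∨ p % 3 = 2 := by omega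
    rcases this with h | h <;> rw [h])
  obtain ⟨Γ, hΓ, hc⟩ := exists_sigSet (k := k) (Om := Om) hp hk hF hL
  obtain ⟨S, W3, hS, hSc, hWc, -, -, hne, hal, hcub⟩ := hΓ.exists_sets h2 h3 hi hω
  exact ⟨S, W3, hS, ⟨hne, hal, hcub⟩, by omega, by omega⟩

end

end Pool.Agent.FS
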